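import Pool.Agent.H71.WE.Targets

/-!
# Row CS1: complete splitting
-/

set_option autoImplicit false
set_option linter.unusedSectionVars false

namespace Pool.Agent.H71.WE

open Finset

section
variable {V E : Type} [Fintype V] [DecidableEq V] [DecidableEq E]

/-- conclusion of complete splitting; the edges of `P` survive -/
def WC (G : Gr V E) (A : Finset E) (z : V) (ρ : Finset V → ℕ) (P : Finset E) : Prop :=
  ∃ (G' : Gr V E) (A' : Finset E) (φ : E → Finset E), A' ⊆ A ∧ P ⊆ A' ∧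
    Lf G A G' A' id φ ∧ (∀ e ∈ A', G'.s e ≠ z ∧ G'.t e ≠ z) ∧
    (∀ X : Finset V, z ∉ X → X.Nonempty → X ≠ univ.erase z → ρ X ≤ cn G' A' X) ∧
    (∀ e ∈ A, G.s e ≠ z → G.t e ≠ z →
      e ∈ A' ∧ G'.s e = G.s e ∧ G'.t e = G.t e ∧ φ e = {e}) ∧
    (∀ e ∈ A', G.s e = z ∨ G.t e = z →
      ∃ q ∈ A, q ≠ e ∧ φ e = {e, q} ∧ Jn G e z (G'.s e) ∧ Jn G q z (G'.t e)) ∧
    (∀ x : V, x ≠ z → Even (cn G' A' {x} + cn G A {x}))

theorem co_lift {G : Gr V E} {A : Finset E} {G1 : Gr V E} {A1 : Finset E}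
    {φ : E → Finset E} (h : Lf G A G1 A1 id φ) {F : Finset E} (hF : F ⊆ A1) {a b : V}
    (hc : Co G1 F a b) : Co G (F.biUnion φ) a b := by
  intro X ha hb
  obtain ⟨e, he, hcr⟩ := hc X ha hb
  have h1 := h.con e (hF he)
  simp only [id] at h1
  rcases hcr with ⟨h2, h3⟩ | ⟨h2, h3⟩
  · obtain ⟨g, hg, hg2⟩ := h1 X h2 h3
    exact ⟨g, mem_biUnion.2 ⟨e, he, hg⟩, hg2⟩
  · obtain ⟨g, hg, hg2⟩ := co_symm h1 X h3 h2
    exact ⟨g, mem_biUnion.2 ⟨e, he, hg⟩, hg2⟩

theorem lf_comp {G : Gr V E} {A : Finset E} {G1 : Gr V E} {A1 : Finset E}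
    {φ1 : E → Finset E} (h1 : Lf G A G1 A1 id φ1) {G2 : Gr V E} {A2 : Finset E}
    {φ2 : E → Finset E} (h2 : Lf G1 A1 G2 A2 id φ2) :
    Lf G A G2 A2 id (fun e => (φ2 e).biUnion φ1) := by
  refine ⟨?_, ?_, ?_⟩
  · intro e he a ha
    obtain ⟨b, hb, hab⟩ := mem_biUnion.1 ha
    exact h1.sub b (h2.sub e he hb) hab
  · intro e he
    exact co_lift h1 (h2.sub e he) (h2.con e he)
  · intro e he e' he' hne
    rw [disjoint_left]
    intro a ha ha'
    obtain ⟨b, hb, hab⟩ := mem_biUnion.1 ha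
    obtain ⟨b', hb', hab'⟩ := mem_biUnion.1 ha'
    have hbb : b ≠ b' := by
      intro h
      subst h
      exact disjoint_left.1 (h2.dis e he e' he' hne) hb hb'
    exact disjoint_left.1 (h1.dis b (h2.sub e he hb) b' (h2.sub e' he' hb') hbb) hab hab'

theorem wc_base {G : Gr V E} {A : Finset E} {z : V} {ρ : Finset V → ℕ}
    (h0 : cn G A {z} = 0)
    (hc : ∀ X : Finset V, z ∉ X → X.Nonempty → X ≠ univ.erase z → ρ X ≤ cn G A X) :
    WC G A z ρ ∅ := by
  have hno : ∀ e ∈ A, ¬ Cr G {z} e := by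
    intro e he hcr
    unfold cn at h0
    rw [card_eq_zero, filter_eq_empty_iff] at h0
    exact h0 he hcr
  have hcn : ∀ X : Finset V, cn G (A.filter (fun e => G.s e ≠ z ∧ G.t e ≠ z)) X = cn G A X := by
    intro X
    unfold cn
    rw [filter_filter]
    congr 1
    apply filter_congr
    intro e he
    constructor
    · exact fun h => h.2
    · intro h
      refine ⟨?_, h⟩
      have h1 := hno e he
      unfold Cr at h1 h
      simp only [mem_singleton] at h1
      constructor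
      · intro hs
        have ht : G.t e = z := by
          by_contra ht
          exact h1 (Or.inl ⟨hs, ht⟩)
        rw [hs, ht] at h
        tauto
      · intro ht
        have hs : G.s e = z := by
          by_contra hs
          exact h1 (Or.inr ⟨hs, ht⟩)
        rw [hs, ht] at h
        tauto
  refine ⟨G, A.filter (fun e => G.s e ≠ z ∧ G.t e ≠ z), fun e => {e}, filter_subset _ _,
    empty_subset _, ⟨?_, ?_, ?_⟩, ?_, ?_, ?_, ?_, ?_⟩
  · intro e he
    exact singleton_subset_iff.2 (mem_filter.1 he).1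
  · intro e _
    exact co_edge (Or.inl ⟨rfl, rfl⟩)
  · intro e _ e' _ hne
    exact disjoint_singleton.2 hne
  · intro e he
    exact (mem_filter.1 he).2
  · intro X h1 h2 h3
    rw [hcn]
    exact hc X h1 h2 h3
  · intro e he h1 h2
    exact ⟨mem_filter.2 ⟨he, h1, h2⟩, rfl, rfl, rfl⟩
  · intro e he h
    have := (mem_filter.1 he).2
    tauto
  · intro x _
    rw [hcn]
    exact ⟨_, rfl⟩

theorem wc_step (h1 : T_ADM) (h2 : T_SP1) {G : Gr V E} {A : Finset E} {z : V}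
    {ρ : Finset V → ℕ} (hρ : Rq z ρ) (hev : Even (cn G A {z}))
    (hc : ∀ X : Finset V, z ∉ X → X.Nonempty → X ≠ univ.erase z → ρ X ≤ cn G A X)
    {p : E} (hp : p ∈ A) {y : V} (hj : Jn G p z y) (hy : y ≠ z)
    (ih : ∀ (G1 : Gr V E) (A1 : Finset E), cn G1 A1 {z} < cn G A {z} → Even (cn G1 A1 {z}) →
      (∀ X : Finset V, z ∉ X → X.Nonempty → X ≠ univ.erase z → ρ X ≤ cn G1 A1 X) →
      WC G1 A1 z ρ ∅) : WC G A z ρ {p} := by
  obtain ⟨q, hq, hqp, y', hy', hjq, hadm⟩ := h1 V E G A z ρ hρ hev hc p hp y hj hy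
  obtain ⟨hcut, hL⟩ := h2 V E G A z y y' p q hp hq hqp hj hjq hy hy'
  have hz := hcut {z}
  rw [if_pos (Or.inl ⟨mem_singleton_self z, by simpa using hy, by simpa using hy'⟩)] at hz
  have hcuts : ∀ X : Finset V, z ∉ X → X.Nonempty → X ≠ univ.erase z →
      ρ X ≤ cn (spl G p y y') (A.erase q) X := by
    intro X h1 h2 h3
    have h4 := hcut X
    have h5 := hc X h1 h2 h3
    by_cases h6 : y ∈ X ∧ y' ∈ X
    · have h7 := hadm X h1 h3 h6.1 h6.2
      split_ifs at h4 <;> omega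
    · rw [if_neg (by tauto)] at h4
      omega
  have hev' : Even (cn (spl G p y y') (A.erase q) {z}) := by
    rw [← hz] at hev
    obtain ⟨k, hk⟩ := hev
    exact ⟨k - 1, by omega⟩
  obtain ⟨G', A', φ, w1, _, w3, w4, w5, w6, w7, w8⟩ := ih _ _ (by omega) hev' hcuts
  have hsp : ∀ e, e ≠ p → (spl G p y y').s e = G.s e ∧ (spl G p y y').t e = G.t e := by
    intro e he
    unfold spl
    exact ⟨Function.update_of_ne he _ _, Function.update_of_ne he _ _⟩
  have hpp : (spl G p y y').s p = y ∧ (spl G p y y').t p = y' := by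
    unfold spl
    exact ⟨Function.update_self _ _ _, Function.update_self _ _ _⟩
  have hpz : G.s p = z ∨ G.t p = z := by
    rcases hj with ⟨a, _⟩ | ⟨_, a⟩
    · exact Or.inl a
    · exact Or.inr a
  have hqz : G.s q = z ∨ G.t q = z := by
    rcases hjq with ⟨a, _⟩ | ⟨_, a⟩
    · exact Or.inl a
    · exact Or.inr a
  have hpA1 : p ∈ A.erase q := mem_erase.2 ⟨hqp.symm, hp⟩
  obtain ⟨hpA', hps, hpt, hpφ⟩ := w6 p hpA1 (by rw [hpp.1]; exact hy) (by rw [hpp.2]; exact hy')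
  refine ⟨G', A', fun e => (φ e).biUnion (fun e => if e = p then {p, q} else {e}),
    w1.trans (erase_subset q A), singleton_subset_iff.2 hpA', lf_comp hL w3, w4, w5, ?_, ?_, ?_⟩
  · intro e he h1 h2
    have hep : e ≠ p := by
      rintro rfl
      rcases hpz with h | h
      · exact h1 h
      · exact h2 h
    have heq : e ≠ q := by
      rintro rfl
      rcases hqz with h | h
      · exact h1 h
      · exact h2 h
    obtain ⟨s1, s2⟩ := hsp e hep
    obtain ⟨u1, u2, u3, u4⟩ := w6 e (mem_erase.2 ⟨heq, he⟩) (by rw [s1]; exact h1)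
      (by rw [s2]; exact h2)
    refine ⟨u1, u2.trans s1, u3.trans s2, ?_⟩
    simp only [u4, singleton_biUnion]
    rw [if_neg hep]
  · intro e he h
    by_cases hep : e = p
    · subst hep
      refine ⟨q, hq, hqp, ?_, ?_, ?_⟩
      · simp only [hpφ, singleton_biUnion, if_true]
      · rw [hps, hpp.1]; exact hj
      · rw [hpt, hpp.2]; exact hjq
    · obtain ⟨s1, s2⟩ := hsp e hep
      obtain ⟨q2, u1, u2, u3, u4, u5⟩ := w7 e he (by rw [s1, s2]; exact h)
      have hq2p : q2 ≠ p := by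
        rintro rfl
        rcases u5 with ⟨u5, _⟩ | ⟨_, u5⟩
        · rw [hpp.1] at u5; exact hy u5
        · rw [hpp.2] at u5; exact hy' u5
      obtain ⟨s3, s4⟩ := hsp q2 hq2p
      refine ⟨q2, (mem_erase.1 u1).2, u2, ?_, ?_, ?_⟩
      · simp only [u3]
        rw [biUnion_insert, singleton_biUnion, if_neg hep, if_neg hq2p]
        rfl
      · unfold Jn at u4 ⊢
        rw [s1, s2] at u4
        exact u4
      · unfold Jn at u5 ⊢
        rw [s3, s4] at u5
        exact u5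
  · intro x hx
    have h3 := w8 x hx
    have h4 := hcut {x}
    rw [← h4, ← add_assoc]
    refine h3.add ?_
    split_ifs
    · exact ⟨1, rfl⟩
    · exact Even.zero

theorem wc_all (h1 : T_ADM) (h2 : T_SP1) {z : V} {ρ : Finset V → ℕ} (hρ : Rq z ρ) (n : ℕ) :
    ∀ (G : Gr V E) (A : Finset E), cn G A {z} = n → Even (cn G A {z}) →
    (∀ X : Finset V, z ∉ X → X.Nonempty → X ≠ univ.erase z → ρ X ≤ cn G A X) →
    WC G A z ρ ∅ := by
  induction n using Nat.strong_induction_on with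
  | _ n ih =>
    intro G A hn hev hc
    by_cases h0 : cn G A {z} = 0
    · exact wc_base h0 hc
    · have hpos : 0 < cn G A {z} := Nat.pos_of_ne_zero h0
      unfold cn at hpos
      obtain ⟨p, hp⟩ := card_pos.1 hpos
      obtain ⟨hpA, hcr⟩ := mem_filter.1 hp
      have : ∃ y, y ≠ z ∧ Jn G p z y := by
        rcases hcr with ⟨a1, a2⟩ | ⟨a1, a2⟩
        · exact ⟨G.t p, fun h => a2 (mem_singleton.2 h), Or.inl ⟨mem_singleton.1 a1, rfl⟩⟩
        · exact ⟨G.s p, fun h => a1 (mem_singleton.2 h), Or.inr ⟨rfl, mem_singleton.1 a2⟩⟩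
      obtain ⟨y, hy, hj⟩ := this
      obtain ⟨G', A', φ, w1, w2, w3⟩ := wc_step h1 h2 hρ hev hc hpA hj hy (by
        intro G1 A1 hlt hev1 hc1
        exact ih _ (by rw [← hn]; exact hlt) G1 A1 rfl hev1 hc1)
      exact ⟨G', A', φ, w1, empty_subset _, w3⟩

end

theorem pf_CS1 (h1 : T_ADM) (h2 : T_SP1) : T_CS1 := by
  intro V E _ _ _ G A z ρ hρ hev hc p hp hpl
  by_cases hz : G.s p = z ∨ G.t p = z
  · have : ∃ y, y ≠ z ∧ Jn G p z y := by
      rcases hz with a | a
      · exact ⟨G.t p, fun h => hpl (a.trans h.symm), Or.inl ⟨a, rfl⟩⟩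
      · exact ⟨G.s p, fun h => hpl (h.trans a.symm), Or.inr ⟨rfl, a⟩⟩
    obtain ⟨y, hy, hj⟩ := this
    obtain ⟨G', A', φ, w1, w2, w3⟩ := wc_step h1 h2 hρ hev hc hp hj hy (by
      intro G1 A1 _ hev1 hc1
      exact wc_all h1 h2 hρ _ G1 A1 rfl hev1 hc1)
    exact ⟨G', A', φ, w1, singleton_subset_iff.1 w2, w3⟩
  · push Not at hz
    obtain ⟨G', A', φ, w1, _, w3, w4, w5, w6, w7⟩ := wc_all h1 h2 hρ _ G A rfl hev hc
    exact ⟨G', A', φ, w1, (w6 p hp hz.1 hz.2).1, w3, w4, w5, w6, w7⟩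

end Pool.Agent.H71.WE
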