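import Pool.Agent.H71.WE.Targets

/-!
# Row CSP: complete splitting, with the vertex removed
-/

set_option autoImplicit false
set_option linter.unusedSectionVars false

namespace Pool.Agent.H71.WE

open Finset

theorem pf_CSP (h1 : T_CS1) (h2 : T_LFT) : T_CSP := by
  intro V E _ _ _ G A z ρ hρ hev hc p hp hpl
  obtain ⟨G', A', φ, w1, w2, w3, w4, w5, w6, w7, w8⟩ := h1 V E G A z ρ hρ hev hc p hp hpl
  have hx0 : ∃ x : V, x ≠ z := by
    by_contra hcon
    push Not at hcon
    exact hpl ((hcon _).trans (hcon _).symm)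
  obtain ⟨x0, hx0⟩ := hx0
  let r : V → {x : V // x ≠ z} := fun x => if h : x ≠ z then ⟨x, h⟩ else ⟨x0, hx0⟩
  have hr : ∀ x, x ≠ z → (r x).1 = x := by
    intro x hx
    simp only [r]
    rw [dif_pos hx]
  let G2 : Gr {x : V // x ≠ z} E := ⟨fun e => r (G'.s e), fun e => r (G'.t e)⟩
  have hs : ∀ e ∈ A', (G2.s e).1 = G'.s e := fun e he => hr _ (w4 e he).1
  have ht : ∀ e ∈ A', (G2.t e).1 = G'.t e := fun e he => hr _ (w4 e he).2
  have hmem : ∀ (X : Finset {x : V // x ≠ z}) (y : {x : V // x ≠ z}),
      y.1 ∈ X.image Subtype.val ↔ y ∈ X := by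
    intro X y
    constructor
    · intro h
      obtain ⟨y', hy', hyy⟩ := mem_image.1 h
      rw [← Subtype.ext hyy]
      exact hy'
    · intro h
      exact mem_image_of_mem _ h
  have hcn : ∀ X : Finset {x : V // x ≠ z}, ∀ F : Finset E, F ⊆ A' →
      cn G2 F X = cn G' F (X.image Subtype.val) := by
    intro X F hF
    unfold cn
    congr 1
    apply filter_congr
    intro e he
    unfold Cr
    rw [← hs e (hF he), ← ht e (hF he), hmem, hmem]
  have hL : Lf G A G2 A' Subtype.val φ := by
    refine ⟨w3.sub, ?_, w3.dis⟩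
    intro e he
    rw [hs e he, ht e he]
    exact w3.con e he
  have hzim : ∀ X : Finset {x : V // x ≠ z}, z ∉ X.image Subtype.val := by
    intro X h
    obtain ⟨y, _, hy⟩ := mem_image.1 h
    exact y.2 hy
  have hcuts : ∀ X : Finset {x : V // x ≠ z}, X.Nonempty → X ≠ univ →
      ρ (X.image Subtype.val) ≤ cn G2 A' X := by
    intro X h3 h4
    rw [hcn X A' (Subset.refl _)]
    refine w5 _ (hzim X) (h3.image _) ?_
    intro h5
    apply h4
    rw [eq_univ_iff_forall]
    intro y
    rw [← hmem, h5]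
    exact mem_erase.2 ⟨y.2, mem_univ _⟩
  refine ⟨G2, A', φ, w1, w2, hL, hcuts, ?_, ?_, ?_, ?_⟩
  · intro e he h3 h4
    obtain ⟨u1, u2, u3, u4⟩ := w6 e he h3 h4
    exact ⟨u1, (hs e u1).trans u2, (ht e u1).trans u3, u4⟩
  · intro e he h
    obtain ⟨q, u1, u2, u3, u4, u5⟩ := w7 e he h
    exact ⟨q, u1, u2, u3, by rw [hs e he]; exact u4, by rw [ht e he]; exact u5⟩
  · intro x
    rw [hcn _ A' (Subset.refl _), image_singleton]
    exact w8 x.1 x.2
  · rintro x hx1 hx2 e he hez ⟨hs1, ht1⟩
    obtain ⟨q, u1, u2, u3, u4, u5⟩ := w7 e he hez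
    have e1 : G'.s e = x.1 := by rw [← hs e he, hs1]
    have e2 : G'.t e = x.1 := by rw [← ht e he, ht1]
    rw [e1] at u4
    rw [e2] at u5
    have hne : ({x} : Finset {x : V // x ≠ z}) ≠ univ := by
      intro h
      apply hx2
      ext y
      rw [mem_erase, mem_singleton]
      constructor
      · rintro ⟨hy, _⟩
        have : (⟨y, hy⟩ : {x : V // x ≠ z}) ∈ ({x} : Finset {x : V // x ≠ z}) := by
          rw [h]; exact mem_univ _
        exact congrArg Subtype.val (mem_singleton.1 this)
      · rintro rfl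
        exact ⟨x.2, mem_univ _⟩
    have k1 := hcuts {x} (singleton_nonempty x) hne
    rw [image_singleton] at k1
    have k2 := (h2 V E {x : V // x ≠ z} E G A G2 A' Subtype.val φ hL).2.1 {e}
      (singleton_subset_iff.2 he) {x.1}
    have hpre : pre (Subtype.val : {x : V // x ≠ z} → V) {x.1} = {x} := by
      ext y
      unfold pre
      rw [mem_filter, mem_singleton, mem_singleton]
      exact ⟨fun h => Subtype.ext h.2, fun h => ⟨mem_univ _, congrArg Subtype.val h⟩⟩
    rw [hpre, singleton_biUnion] at k2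
    have k3 : cn G2 (A' \ {e}) {x} = cn G2 A' {x} := by
      unfold cn
      congr 1
      ext g
      simp only [mem_filter, mem_sdiff, mem_singleton]
      constructor
      · rintro ⟨⟨a1, _⟩, a2⟩
        exact ⟨a1, a2⟩
      · rintro ⟨a1, a2⟩
        refine ⟨⟨a1, ?_⟩, a2⟩
        rintro rfl
        unfold Cr at a2
        rw [hs1, ht1] at a2
        tauto
    have k4 : φ e ⊆ A := w3.sub e he
    have k5 := cn_sdiff G k4 {x.1}
    have hxz : x.1 ≠ z := x.2
    have k6 : cn G (φ e) {x.1} = 2 := by
      unfold cn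
      rw [u3, filter_true_of_mem]
      · exact card_pair u2.symm
      · intro g hg
        rw [mem_insert, mem_singleton] at hg
        rcases hg with rfl | rfl
        · rw [jn_cr u4]
          right
          exact ⟨by simpa using hxz.symm, mem_singleton_self _⟩
        · rw [jn_cr u5]
          right
          exact ⟨by simpa using hxz.symm, mem_singleton_self _⟩
    omega

end Pool.Agent.H71.WE
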