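import Pool.Agent.H71.WE.Targets

/-!
# Row D
-/

set_option autoImplicit false

namespace Pool.Agent.H71.WE

open Finset

theorem pf_D (h0 : T_D0) (h1 : T_DT) (h2 : T_DA) (h3 : T_DS) (h4 : T_DB) : T_D := by
  have key : ∀ (n c : ℕ) (V E I : Type) [Fintype V] [DecidableEq V] [DecidableEq E]
      [DecidableEq I] (G : Gr V E) (A : Finset E) (a b : I → V) (J : Finset I),
      c + Fintype.card V + J.card = n → DH G A a b J c → DC G A a b J := by
    intro n
    induction n using Nat.strong_induction_on with
    | _ n ih =>
      intro c V E I iV iD iE iI G A a b J hn hD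
      by_cases hJ : J = ∅
      · refine ⟨fun _ => ∅, fun _ _ => empty_subset _, fun _ _ _ _ _ => disjoint_empty_left _, ?_⟩
        intro i hi
        rw [hJ] at hi
        exact absurd hi (notMem_empty i)
      have hJne : J.Nonempty := nonempty_iff_ne_empty.2 hJ
      by_cases hc : c = 0
      · subst hc
        exact h0 V E I G A a b J hD
      have hsub : ∀ z : V, Fintype.card {x : V // x ≠ z} < Fintype.card V := by
        intro z
        exact Fintype.card_subtype_lt (x := z) (by simp)
      by_cases ht : ∃ i ∈ J, a i = b i
      · obtain ⟨i, hi, hab⟩ := ht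
        refine h1 V E I G A a b J c i hD hi hab ?_
        intro hD'
        have hlt : (J.erase i).card < J.card := card_erase_lt_of_mem hi
        exact ih (c + Fintype.card V + (J.erase i).card) (by omega) c V E I G A a b (J.erase i)
          rfl hD'
      push Not at ht
      by_cases h2t : ∃ x : V, 2 ≤ tk a b J x
      · obtain ⟨x, hx⟩ := h2t
        -- two demands at x
        have hdj : Disjoint (J.filter (fun i => a i = x)) (J.filter (fun i => b i = x)) := by
          rw [disjoint_left]
          intro i hi hi'
          rw [mem_filter] at hi hi'
          exact ht i hi.1 (hi.2.trans hi'.2.symm)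
        have hcard : 2 ≤ (J.filter (fun i => a i = x) ∪ J.filter (fun i => b i = x)).card := by
          rw [card_union_of_disjoint hdj]
          exact hx
        obtain ⟨i, hi, j, hj, hij⟩ := one_lt_card.1 hcard
        have hm : ∀ i, i ∈ J.filter (fun i => a i = x) ∪ J.filter (fun i => b i = x) →
            i ∈ J ∧ (a i = x ∨ b i = x) := by
          intro i hi
          rw [mem_union, mem_filter, mem_filter] at hi
          tauto
        obtain ⟨hi1, hi2⟩ := hm i hi
        obtain ⟨hj1, hj2⟩ := hm j hj
        have hce : Even c := hD.1
        obtain ⟨r, rfl⟩ : ∃ r, c = r + 2 := by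
          obtain ⟨q, hq⟩ := hce
          exact ⟨c - 2, by omega⟩
        refine h2 V E I G A a b J r x i j hD ht hi1 hj1 hij hi2 hj2 ?_
        intro A' hD'
        have hle : ((J.erase i).erase j).card ≤ J.card :=
          card_le_card ((erase_subset j _).trans (erase_subset i J))
        exact ih (r + Fintype.card V + ((J.erase i).erase j).card) (by omega) r V E I G A' a b
          ((J.erase i).erase j) rfl hD'
      by_cases h0t : ∃ z : V, tk a b J z = 0
      · obtain ⟨z, hz⟩ := h0t
        refine h3 V E I G A a b J c z hD (by omega) hJne hz ?_
        intro G' A' a' b' hD'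
        have := hsub z
        exact ih (c + Fintype.card {x : V // x ≠ z} + J.card) (by omega) c _ E I G' A' a' b' J
          rfl hD'
      · refine h4 V E I G A a b J c hD (by omega) hJne ?_ ?_
        · intro x
          by_contra hc
          rcases Nat.lt_or_ge (tk a b J x) 2 with hlt | hge
          · exact h0t ⟨x, by omega⟩
          · exact h2t ⟨x, hge⟩
        · intro z G' A' a' b' hD'
          have := hsub z
          exact ih (c + Fintype.card {x : V // x ≠ z} + J.card) (by omega) c _ E I G' A' a' b' J
            rfl hD'
  intro c V E I iV iD iE iI G A a b J hD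
  exact key _ c V E I G A a b J rfl hD

end Pool.Agent.H71.WE
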