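import Pool.Agent.H71.WE.U

/-!
# The terminal form of the Eulerian theorem
-/

set_option autoImplicit false
set_option linter.unusedSectionVars false

namespace Pool.Agent.H71.WE

open Finset

section
variable {V E I : Type} [Fintype V] [DecidableEq V] [DecidableEq E] [DecidableEq I]

/-- hypotheses: all cuts separating two terminals have at least `c` edges -/
def DHU (G : Gr V E) (A : Finset E) (a b : I → V) (J : Finset I) (c : ℕ) : Prop :=
  Even c ∧ (∀ X : Finset V, SU (tk a b J) X → c ≤ cn G A X) ∧ J.card ≤ c + 1 ∧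
    ∀ v : V, Even (cn G A {v} + tk a b J v)

/-- solutions lift through a splitting -/
theorem dc_lift (h : T_LFT) {G : Gr V E} {A : Finset E} {G' : Gr V E} {A' : Finset E}
    {φ : E → Finset E} (hL : Lf G A G' A' id φ) {a b : I → V} {J : Finset I}
    (hD : DC G' A' a b J) : DC G A a b J := by
  obtain ⟨F, hF1, hF2, hF3⟩ := hD
  obtain ⟨l1, _, l3⟩ := h V E V E G A G' A' id φ hL
  refine ⟨fun i => (F i).biUnion φ, ?_, ?_, ?_⟩
  · intro i hi e he
    obtain ⟨e', he', hee⟩ := mem_biUnion.1 he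
    exact hL.sub e' (hF1 i hi he') hee
  · intro i hi j hj hij
    exact l3 _ _ (hF1 i hi) (hF1 j hj) (hF2 i hi j hj hij)
  · intro i hi
    exact l1 _ (hF1 i hi) _ _ (hF3 i hi)

/-- all vertices without demands are isolated -/
theorem du_base (hD : T_D) {G : Gr V E} {A : Finset E} {a b : I → V} {J : Finset I} {c : ℕ}
    (h : DHU G A a b J c) (hiso : ∀ v, tk a b J v = 0 → cn G A {v} = 0) : DC G A a b J := by
  classical
  obtain ⟨hc, hconn, hJ, hpar⟩ := h
  by_cases hJe : J = ∅
  · refine ⟨fun _ => ∅, fun _ _ => empty_subset _, fun _ _ _ _ _ => disjoint_empty_left _, ?_⟩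
    intro i hi
    rw [hJe] at hi
    exact absurd hi (notMem_empty i)
  obtain ⟨i0, hi0⟩ := nonempty_iff_ne_empty.2 hJe
  have hta : ∀ i ∈ J, tk a b J (a i) ≠ 0 := by
    intro i hi h
    unfold tk at h
    have : 0 < (J.filter (fun j => a j = a i)).card := card_pos.2 ⟨i, mem_filter.2 ⟨hi, rfl⟩⟩
    omega
  have htb : ∀ i ∈ J, tk a b J (b i) ≠ 0 := by
    intro i hi h
    unfold tk at h
    have : 0 < (J.filter (fun j => b j = b i)).card := card_pos.2 ⟨i, mem_filter.2 ⟨hi, rfl⟩⟩
    omega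
  let U := {v : V // tk a b J v ≠ 0}
  let r : V → U := fun x => if h : tk a b J x ≠ 0 then ⟨x, h⟩ else ⟨a i0, hta i0 hi0⟩
  have hr : ∀ x, tk a b J x ≠ 0 → (r x).1 = x := by
    intro x hx
    simp only [r]
    rw [dif_pos hx]
  let G2 : Gr U E := ⟨fun e => r (G.s e), fun e => r (G.t e)⟩
  let A' : Finset E := A.filter (fun e => tk a b J (G.s e) ≠ 0 ∧ tk a b J (G.t e) ≠ 0)
  have hmem : ∀ (X : Finset U) (y : U), y.1 ∈ X.image Subtype.val ↔ y ∈ X := by
    intro X y
    constructor
    · intro h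
      obtain ⟨y', hy', hyy⟩ := mem_image.1 h
      rw [← Subtype.ext hyy]
      exact hy'
    · intro h
      exact mem_image_of_mem _ h
  -- crossing edges are in A'
  have hcrA : ∀ e ∈ A, ∀ X : Finset V, Cr G X e → e ∈ A' := by
    intro e he X hcr
    refine mem_filter.2 ⟨he, ?_, ?_⟩
    · intro h0
      have h1 := hiso _ h0
      unfold cn at h1
      rw [card_eq_zero, filter_eq_empty_iff] at h1
      apply h1 he
      left
      refine ⟨mem_singleton_self _, ?_⟩
      rw [mem_singleton]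
      intro h2
      unfold Cr at hcr
      rw [h2] at hcr
      tauto
    · intro h0
      have h1 := hiso _ h0
      unfold cn at h1
      rw [card_eq_zero, filter_eq_empty_iff] at h1
      apply h1 he
      right
      refine ⟨?_, mem_singleton_self _⟩
      rw [mem_singleton]
      intro h2
      unfold Cr at hcr
      rw [h2] at hcr
      tauto
  have hcr2 : ∀ (X : Finset U) (e : E), e ∈ A' → (Cr G2 X e ↔ Cr G (X.image Subtype.val) e) := by
    intro X e he
    obtain ⟨_, h1, h2⟩ := mem_filter.1 he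
    unfold Cr
    rw [← hr _ h1, ← hr _ h2, hmem, hmem]
  have hcn : ∀ X : Finset U, cn G2 A' X = cn G A (X.image Subtype.val) := by
    intro X
    unfold cn
    congr 1
    ext e
    constructor
    · intro h
      obtain ⟨h1, h2⟩ := mem_filter.1 h
      exact mem_filter.2 ⟨(mem_filter.1 h1).1, (hcr2 X e h1).1 h2⟩
    · intro h
      obtain ⟨h1, h2⟩ := mem_filter.1 h
      have h3 := hcrA e h1 _ h2
      exact mem_filter.2 ⟨h3, (hcr2 X e h3).2 h2⟩
  have htk : ∀ x : U, tk (fun i => r (a i)) (fun i => r (b i)) J x = tk a b J x.1 := by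
    intro x
    unfold tk
    congr 2
    · apply filter_congr
      intro i hi
      rw [← Subtype.coe_inj, hr _ (hta i hi)]
    · apply filter_congr
      intro i hi
      rw [← Subtype.coe_inj, hr _ (htb i hi)]
  obtain ⟨F, hF1, hF2, hF3⟩ := hD c U E I G2 A' (fun i => r (a i)) (fun i => r (b i)) J
    ⟨hc, by
      intro X h1 h2
      rw [hcn]
      apply hconn
      obtain ⟨x, hx⟩ := h1
      have h3 : ∃ y, y ∉ X := by
        by_contra hcon
        push Not at hcon
        exact h2 (eq_univ_iff_forall.2 hcon)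
      obtain ⟨y, hy⟩ := h3
      exact ⟨⟨x.1, mem_image_of_mem _ hx, x.2⟩, y.1, fun h => hy ((hmem X y).1 h), y.2⟩, hJ, by
      intro x
      rw [hcn, image_singleton, htk]
      exact hpar x.1⟩
  refine ⟨F, fun i hi => (hF1 i hi).trans (filter_subset _ _), hF2, ?_⟩
  intro i hi X ha hb
  obtain ⟨e, he, hcr⟩ := hF3 i hi (univ.filter (fun x : U => x.1 ∈ X))
    (mem_filter.2 ⟨mem_univ _, by rw [hr _ (hta i hi)]; exact ha⟩) (by
      rw [mem_filter, hr _ (htb i hi)]
      exact fun h => hb h.2)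
  refine ⟨e, he, ?_⟩
  obtain ⟨_, h1, h2⟩ := mem_filter.1 (hF1 i hi he)
  unfold Cr at hcr ⊢
  simp only [mem_filter, mem_univ, true_and] at hcr
  have e1 : (G2.s e).1 = G.s e := hr _ h1
  have e2 : (G2.t e).1 = G.t e := hr _ h2
  rw [e1, e2] at hcr
  exact hcr

/-- **terminal form of the Eulerian theorem** -/
theorem du (hD : T_D) (h1 : T_CUT) (h2 : T_CUX) (h3 : T_SP1) (h4 : T_LFT) (n : ℕ) :
    ∀ (G : Gr V E) (A : Finset E) (a b : I → V) (J : Finset I) (c : ℕ), A.card = n →
      DHU G A a b J c → DC G A a b J := by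
  induction n using Nat.strong_induction_on with
  | _ n ih =>
    intro G A a b J c hn h
    by_cases hiso : ∀ v, tk a b J v = 0 → cn G A {v} = 0
    · exact du_base hD h hiso
    push Not at hiso
    obtain ⟨z, hz, hz'⟩ := hiso
    obtain ⟨hc, hconn, hJ, hpar⟩ := h
    have hpos : 0 < cn G A {z} := Nat.pos_of_ne_zero hz'
    unfold cn at hpos
    obtain ⟨p, hp⟩ := card_pos.1 hpos
    obtain ⟨hpA, hcr⟩ := mem_filter.1 hp
    have : ∃ y, y ≠ z ∧ Jn G p z y := by
      rcases hcr with ⟨a1, a2⟩ | ⟨a1, a2⟩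
      · exact ⟨G.t p, fun h => a2 (mem_singleton.2 h), Or.inl ⟨mem_singleton.1 a1, rfl⟩⟩
      · exact ⟨G.s p, fun h => a1 (mem_singleton.2 h), Or.inr ⟨rfl, mem_singleton.1 a2⟩⟩
    obtain ⟨y, hy, hj⟩ := this
    obtain ⟨q, hq, hqp, y', hy', hjq, hadm⟩ := adu h1 h2 hc hpar hconn hz hpA hy hj
    obtain ⟨hcut, hL⟩ := h3 V E G A z y y' p q hpA hq hqp hj hjq hy hy'
    refine dc_lift h4 hL ?_
    refine ih _ (by rw [← hn]; exact card_erase_lt_of_mem hq) (spl G p y y') (A.erase q) a b J c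
      rfl ⟨hc, ?_, hJ, ?_⟩
    · intro X hX
      have k1 := hcut X
      have k2 := hconn X hX
      by_cases k3 : z ∉ X ∧ y ∈ X ∧ y' ∈ X
      · have k4 := hadm X k3.1 k3.2.1 k3.2.2 hX
        split_ifs at k1 <;> omega
      · by_cases k4 : z ∈ X ∧ y ∉ X ∧ y' ∉ X
        · have k5 := hadm Xᶜ (by simpa using k4.1) (mem_compl.2 k4.2.1) (mem_compl.2 k4.2.2) (by
            obtain ⟨⟨v, hv, hv'⟩, w, hw, hw'⟩ := hX
            exact ⟨⟨w, mem_compl.2 hw, hw'⟩, v, by simpa using hv, hv'⟩)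
          rw [cn_compl] at k5
          split_ifs at k1 <;> omega
        · rw [if_neg (by tauto)] at k1
          omega
    · intro v
      have k1 := hcut {v}
      have k2 := hpar v
      rw [← k1] at k2
      rw [Nat.even_add] at k2 ⊢
      split_ifs at k2 with hif
      · rw [Nat.even_add] at k2
        rw [← k2]
        simp
      · simpa using k2

end

/-- the terminal form -/
def T_DU : Prop := ∀ (V E I : Type) [Fintype V] [DecidableEq V] [DecidableEq E]
  [DecidableEq I] (G : Gr V E) (A : Finset E) (a b : I → V) (J : Finset I) (c : ℕ),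
  DHU G A a b J c → DC G A a b J

theorem pf_DU (hD : T_D) (h1 : T_CUT) (h2 : T_CUX) (h3 : T_SP1) (h4 : T_LFT) : T_DU := by
  intro V E I _ _ _ _ G A a b J c h
  exact du hD h1 h2 h3 h4 A.card G A a b J c rfl h

/-- the terminal form with defect -/
def T_TAUU : Prop := ∀ (V E I : Type) [Fintype V] [DecidableEq V] [DecidableEq E]
  [DecidableEq I] (G : Gr V E) (A : Finset E) (a b : I → V) (J : Finset I) (k : ℕ),
  (∀ X : Finset V, (∃ v ∈ X, tk a b J v ≠ 0 ∨ Odd (cn G A {v} + tk a b J v)) →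
    (∃ v, v ∉ X ∧ (tk a b J v ≠ 0 ∨ Odd (cn G A {v} + tk a b J v))) → 2 * k ≤ cn G A X) →
  2 * J.card + (univ.filter (fun v : V => Odd (cn G A {v} + tk a b J v))).card ≤ 4 * k + 2 →
  DC G A a b J

open Pool.Agent.H75.WE in
theorem pf_TAUU (h1 : T_DU) (h2 : T_CUX) : T_TAUU := by
  classical
  intro V E I _ _ _ _ G A a b J k hE hJ
  set O : Finset V := univ.filter (fun v : V => Odd (cn G A {v} + tk a b J v)) with hO
  have hcn : cn G A univ = 0 := cn_univ G A
  have hev : Even O.card := by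
    rw [hO, ← even_sum_iff_even_card_odd, sum_add_distrib, sum_tk]
    have h3 := (h2 V E G A).2.2 univ
    rw [hcn, zero_add] at h3
    exact h3.add (even_two_mul _)
  obtain ⟨m, hm⟩ := hev
  have e : Fin m ⊕ Fin m ≃ O := Fintype.equivOfCardEq (by simp [hm])
  have hJ' : (J.disjSum (univ : Finset (Fin m))).card = J.card + m := by
    rw [card_disjSum, card_univ, Fintype.card_fin]
  have hsp : ∀ v, tk (Sum.elim a fun j => (e (.inl j)).1) (Sum.elim b fun j => (e (.inr j)).1)
      (J.disjSum univ) v ≠ 0 → tk a b J v ≠ 0 ∨ Odd (cn G A {v} + tk a b J v) := by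
    intro v hv
    rw [tk_sum] at hv
    by_cases hO' : v ∈ O
    · exact Or.inr (mem_filter.1 hO').2
    · rw [if_neg hO', add_zero] at hv
      exact Or.inl hv
  obtain ⟨F, hF1, hF2, hF3⟩ := h1 V E (I ⊕ Fin m) G A
    (Sum.elim a fun j => (e (.inl j)).1) (Sum.elim b fun j => (e (.inr j)).1)
    (J.disjSum univ) (2 * k) ⟨even_two_mul k, fun X hX => by
      obtain ⟨⟨v, hv, hv'⟩, w, hw, hw'⟩ := hX
      exact hE X ⟨v, hv, hsp v hv'⟩ ⟨w, hw, hsp w hw'⟩, by rw [hJ']; omega, fun v => by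
      rw [tk_sum, ← add_assoc]
      by_cases hv : v ∈ O
      · rw [if_pos hv]
        exact (mem_filter.1 hv).2.add_one
      · rw [if_neg hv, add_zero]
        by_contra hcon
        exact hv (mem_filter.2 ⟨mem_univ v, Nat.not_even_iff_odd.1 hcon⟩)⟩
  refine ⟨fun i => F (.inl i), fun i hi => hF1 _ (inl_mem_disjSum.2 hi), fun i hi j hj hij =>
    hF2 _ (inl_mem_disjSum.2 hi) _ (inl_mem_disjSum.2 hj) fun h => hij (Sum.inl.inj h),
    fun i hi => hF3 _ (inl_mem_disjSum.2 hi)⟩

end Pool.Agent.H71.WE
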