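import Pool.Agent.H71.WE.Targets

/-!
# Row E
-/

set_option autoImplicit false

namespace Pool.Agent.H71.WE

open Finset

theorem pf_E (h0 : T_E0) (h1 : T_E1A) (h2 : T_E1B) (h3 : T_E2A) (h4 : T_E2B) (h5 : T_E3A)
    (h6 : T_E3B) (h7 : T_E4) (h8 : T_E5) (h9 : T_CTR) : T_E := by
  intro V E iV iD iE r
  obtain ⟨n, hn⟩ : ∃ n, Fintype.card V = n := ⟨_, rfl⟩
  induction n using Nat.strong_induction_on generalizing V with
  | _ n ih =>
    intro G A
    obtain ⟨m, hm⟩ : ∃ m, A.card = m := ⟨_, rfl⟩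
    induction m using Nat.strong_induction_on generalizing A with
    | _ m ihm =>
      intro K v z e hE
      have hctr : ∀ S : Finset V, 2 ≤ S.card → IE r (Option {x : V // x ∉ S}) E := by
        intro S hS
        have hSne : S.Nonempty := card_pos.1 (by omega)
        have hlt := ((h9 V E G).2.2 S hSne).2.2.2.2 hS
        rw [hn] at hlt
        exact ih _ hlt (Option {x : V // x ∉ S}) rfl
      have hsub : ∀ x : V, IE r {y : V // y ≠ x} E := by
        intro x
        have hlt : Fintype.card {y : V // y ≠ x} < n := by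
          rw [← hn]
          exact Fintype.card_subtype_lt (x := x) (by simp)
        exact ih _ hlt {y : V // y ≠ x} rfl
      by_cases hzK : z ∈ K
      · exact h0 V E G A r K v z e hE hzK
      by_cases hS : ∃ S : Finset V, Disjoint S K ∧ 2 ≤ S.card ∧ cn G A S ≤ r + 3
      · obtain ⟨S, hS1, hS2, hS3⟩ := hS
        by_cases hzS : z ∈ S
        · exact h1 V E G A r K v z e S hE hzK hS1 hS3 hzS (hctr S hS2)
        · exact h2 V E G A r K v z e S hE hzK hS1 (card_pos.1 (by omega)) hS3 hzS (hctr S hS2)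
      by_cases hx : ∃ x : V, x ∉ K ∧ Even (cn G A {x})
      · obtain ⟨x, hx1, hx2⟩ := hx
        by_cases hxz : x = z
        · subst hxz
          exact h3 V E G A r K v x e hE hzK hx2 (hsub x)
        · exact h4 V E G A r K v z e x hE hx1 hxz hx2 (hsub x)
      by_cases hW : ∃ W : Finset V, v ∉ W ∧ 2 ≤ W.card ∧ 2 ≤ Wᶜ.card ∧ cn G A W ≤ r + 1
      · obtain ⟨W, hW1, hW2, hW3, hW4⟩ := hW
        by_cases hzW : z ∈ W
        · exact h5 V E G A r K v z e W hE hW1 hzW hW4 (hctr _ hW3)
        · exact h6 V E G A r K v z e W hE hW1 hzW (card_pos.1 (by omega)) hW4 (hctr _ hW2)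
            (hctr _ hW3)
      have nS : ∀ S : Finset V, Disjoint S K → 2 ≤ S.card → r + 4 ≤ cn G A S := by
        intro S hS1 hS2
        by_contra hc
        exact hS ⟨S, hS1, hS2, by omega⟩
      have nE : ∀ x : V, x ∉ K → ¬ Even (cn G A {x}) := fun x hx1 hx2 => hx ⟨x, hx1, hx2⟩
      have nW : ∀ W : Finset V, v ∉ W → 2 ≤ W.card → 2 ≤ Wᶜ.card → r + 2 ≤ cn G A W := by
        intro W hW1 hW2 hW3
        by_contra hc
        exact hW ⟨W, hW1, hW2, hW3, by omega⟩
      by_cases hg : ∃ g ∈ A, G.s g ∉ K ∧ G.t g ∉ K ∧ G.s g ≠ G.t g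
      · obtain ⟨g, hgA, hg1, hg2, hg3⟩ := hg
        refine h7 V E G A r K v z e g hE hgA hg1 hg2 hg3 nS nE nW ?_
        intro hE'
        exact ihm _ (by rw [← hm]; exact card_erase_lt_of_mem hgA) (A.erase g) rfl K v z e hE'
      · refine h8 V E G A r K v z e hE hzK ?_ nE nW
        intro g hgA hg1 hg2
        by_contra hc
        exact hg ⟨g, hgA, hg1, hg2, hc⟩

end Pool.Agent.H71.WE
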