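import Pool.Agent.H71.WE.Targets

/-!
# From `T_TAU` to multigraphs on `Fin n`
-/

set_option autoImplicit false

namespace Pool.Agent.H71.WE

open Finset

/-- number of edges with exactly one end in `S` -/
def cut {n e : ℕ} (src tgt : Fin e → Fin n) (S : Finset (Fin n)) : ℕ :=
  (Finset.univ.filter (fun x : Fin e =>
    (src x ∈ S ∧ tgt x ∉ S) ∨ (src x ∉ S ∧ tgt x ∈ S))).card

/-- `F` contains a path from `a` to `b` (cut form) -/
def Connects {n e : ℕ} (src tgt : Fin e → Fin n) (F : Finset (Fin e)) (a b : Fin n) : Prop :=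
  ∀ S : Finset (Fin n), a ∈ S → b ∉ S →
    ∃ x ∈ F, (src x ∈ S ∧ tgt x ∉ S) ∨ (src x ∉ S ∧ tgt x ∈ S)

theorem fin_form (h : T_TAU) (k m n e : ℕ) (src tgt : Fin e → Fin n)
    (hcut : ∀ S : Finset (Fin n), S.Nonempty → S ≠ Finset.univ → 2 * k ≤ cut src tgt S)
    (u v : Fin m → Fin n)
    (ht : 2 * m + (Finset.univ.filter (fun w : Fin n => Odd (cut src tgt {w} +
      (Finset.univ.filter (fun i => u i = w)).card +
      (Finset.univ.filter (fun i => v i = w)).card))).card ≤ 4 * k + 2) :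
    ∃ F : Fin m → Finset (Fin e), (∀ i i', i ≠ i' → Disjoint (F i) (F i')) ∧
      ∀ i, Connects src tgt (F i) (u i) (v i) := by
  have h1 := h (Fin n) (Fin e) (Fin m) ⟨src, tgt⟩ univ u v univ k
    (by
      intro X h1 h2
      exact hcut X h1 h2)
    (by
      rw [card_univ, Fintype.card_fin]
      refine le_trans (le_of_eq ?_) ht
      congr 2
      apply filter_congr
      intro w _
      show Odd (cn _ _ _ + tk _ _ _ _) ↔ _
      unfold tk
      rw [← add_assoc]
      rfl)
  obtain ⟨F, _, h2, h3⟩ := h1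
  exact ⟨F, fun i i' hi => h2 i (mem_univ _) i' (mem_univ _) hi,
    fun i S ha hb => h3 i (mem_univ _) S ha hb⟩

end Pool.Agent.H71.WE
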