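import Pool.Agent.H71.WE.Targets

/-!
# Row GS
-/

set_option autoImplicit false

namespace Pool.Agent.H71.WE

open Finset

theorem pf_GS (h0 : T_G0) (h1 : T_GQ) (h2 : T_GRE) (h3 : T_GA) (h4 : T_GB1) (h5 : T_GB2)
    (h6 : T_GB3) (h7 : T_CTR) : T_GS := by
  intro V E iV iD iE r
  obtain ⟨n, hn⟩ : ∃ n, Fintype.card V = n := ⟨_, rfl⟩
  induction n using Nat.strong_induction_on generalizing V with
  | _ n ih =>
    intro G A
    obtain ⟨m, hm⟩ : ∃ m, A.card = m := ⟨_, rfl⟩
    induction m using Nat.strong_induction_on generalizing G A with
    | _ m ihm =>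
      intro y y' a b e t hG
      have hctr : ∀ S : Finset V, 2 ≤ S.card → IG r (Option {x : V // x ∉ S}) E := by
        intro S hS
        have hSne : S.Nonempty := card_pos.1 (by omega)
        have hlt := ((h7 V E G).2.2 S hSne).2.2.2.2 hS
        rw [hn] at hlt
        exact ih _ hlt (Option {x : V // x ∉ S}) rfl
      have hsub : ∀ x : V, IG r {y : V // y ≠ x} E := by
        intro x
        have hlt : Fintype.card {y : V // y ≠ x} < n := by
          rw [← hn]
          exact Fintype.card_subtype_lt (x := x) (by simp)
        exact ih _ hlt {y : V // y ≠ x} rfl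
      have hn' : IGn r V E A.card := by
        intro G' A' hA'
        exact ihm _ (by rw [← hm]; exact hA') G' A' rfl
      have hG' := gh_swap hG
      have hG2 := hG
      obtain ⟨hr, hec, heA, htA, het, hyy, hab, hje, hjt⟩ := hG2
      by_cases c1 : r + 4 ≤ cn G A {y'}
      · exact h0 V E G A r y y' a b e t hG c1 hn'
      by_cases c2 : r + 4 ≤ cn G A {y}
      · exact gc_swap (h0 V E G A r y' y a b e t hG' c2 hn')
      by_cases c3 : a = y' ∨ b = y'
      · exact h1 V E G A r y y' a b e t hG c3 (by omega)
      by_cases c4 : a = y ∨ b = y
      · exact gc_swap (h1 V E G A r y' y a b e t hG' c4 (by omega))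
      push Not at c3 c4
      by_cases c5 : cn G A {y'} = r + 2
      · exact h2 V E G A r y y' a b e t hG c3.1.symm c3.2.symm (by omega)
          (h3 V E G A r y y' a b e t hG c3.1.symm c3.2.symm c5 (by omega) (hsub y'))
      by_cases c6 : cn G A {y} = r + 2
      · exact gc_swap (h2 V E G A r y' y a b e t hG' c4.1.symm c4.2.symm (by omega)
          (h3 V E G A r y' y a b e t hG' c4.1.symm c4.2.symm c6 (by omega) (hsub y)))
      have d1 : r + 2 ≤ cn G A {y'} := hec _ (singleton_nonempty _) (by
        intro h
        have : y ∈ ({y'} : Finset V) := by rw [h]; exact mem_univ _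
        exact hyy (mem_singleton.1 this))
      have d2 : r + 2 ≤ cn G A {y} := hec _ (singleton_nonempty _) (by
        intro h
        have : y' ∈ ({y} : Finset V) := by rw [h]; exact mem_univ _
        exact hyy (mem_singleton.1 this).symm)
      by_cases c7 : Ec G (A.erase e) (r + 2)
      · exact h2 V E G A r y y' a b e t hG c3.1.symm c3.2.symm (by omega)
          (h4 V E G A r y y' a b e t hG c3.1.symm c3.2.symm c7 hn')
      unfold Ec at c7
      push Not at c7
      obtain ⟨X, hX1, hX2, hX3⟩ := c7
      have hX4 := hec X hX1 hX2
      have hsd : cn G (A.erase e) X + cn G {e} X = cn G A X := by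
        have := cn_sdiff G (singleton_subset_iff.2 heA) X
        rwa [sdiff_singleton_eq_erase] at this
      have hcre : Cr G X e := by
        by_contra hc
        have : cn G {e} X = 0 := by
          unfold cn
          rw [card_eq_zero, filter_eq_empty_iff]
          intro x hx
          rw [mem_singleton.1 hx]
          exact hc
        omega
      have h1e : cn G {e} X = 1 := by
        unfold cn
        rw [filter_true_of_mem]
        · exact card_singleton e
        · intro x hx
          rw [mem_singleton.1 hx]
          exact hcre
      -- main claim for a tight set containing y' and not y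
      have main : ∀ (y y' : V), GH G A r y y' a b e t → cn G A {y'} ≠ r + 2 →
          cn G A {y} ≠ r + 2 → ∀ X : Finset V, y' ∈ X → y ∉ X → cn G A X = r + 2 →
          GC G A r y y' a b e t := by
        intro y y' hG e1 e2 X m1 m2 hX
        have hc2 : 2 ≤ X.card := by
          by_contra hc
          have : X = {y'} := by
            have h1 : X.card ≤ 1 := by omega
            rw [card_le_one] at h1
            exact eq_singleton_iff_unique_mem.2 ⟨m1, fun x hx => h1 x hx y' m1⟩
          rw [this] at hX
          exact e1 hX
        have hc3 : 2 ≤ Xᶜ.card := by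
          by_contra hc
          have hyc : y ∈ Xᶜ := mem_compl.2 m2
          have : Xᶜ = {y} := by
            have h1 : Xᶜ.card ≤ 1 := by omega
            rw [card_le_one] at h1
            exact eq_singleton_iff_unique_mem.2 ⟨hyc, fun x hx => h1 x hx y hyc⟩
          rw [← cn_compl, this] at hX
          exact e2 hX
        by_cases ha : a ∈ X
        · by_cases hb : b ∈ X
          · -- both in X: use the complement
            refine gc_swap (h5 V E G A r y' y a b e t Xᶜ (gh_swap hG) (mem_compl.2 m2) ?_ ?_ ?_
              ?_ (hctr _ hc3))
            · simpa using m1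
            · simpa using ha
            · simpa using hb
            · rw [cn_compl]; exact hX
          · exact h6 V E G A r y y' a b e t X hG m1 m2 ha hb hX
        · by_cases hb : b ∈ X
          · exact gc_swap2 (h6 V E G A r y y' b a e t X (gh_swap2 hG) m1 m2 hb ha hX)
          · exact h5 V E G A r y y' a b e t X hG m1 m2 ha hb hX (hctr _ hc2)
      rcases (jn_cr hje X).1 hcre with ⟨m1, m2⟩ | ⟨m1, m2⟩
      · exact gc_swap (main y' y hG' c6 c5 X m1 m2 (by omega))
      · exact main y y' hG c5 c6 X m2 m1 (by omega)

end Pool.Agent.H71.WE
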