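import Pool.Agent.H71.WE.DU

/-!
# The general form: odd vertices may be moved along edges outside a strong subgraph
-/

set_option autoImplicit false
set_option linter.unusedSectionVars false

namespace Pool.Agent.H71.WE

open Finset

section
variable {V E : Type} [Fintype V] [DecidableEq V] [DecidableEq E]

theorem cn_symmDiff (G : Gr V E) (F F' : Finset E) (X : Finset V) :
    Even (cn G ((F \ F') ∪ (F' \ F)) X + (cn G F X + cn G F' X)) := by
  have hd : Disjoint (F \ F') (F' \ F) := by
    rw [disjoint_left]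
    intro e h1 h2
    exact (mem_sdiff.1 h2).2 (mem_sdiff.1 h1).1
  have h1 : cn G ((F \ F') ∪ (F' \ F)) X = cn G (F \ F') X + cn G (F' \ F) X := by
    unfold cn
    rw [filter_union, card_union_of_disjoint (disjoint_filter_filter hd)]
  have h2 : cn G (F \ F') X + cn G (F ∩ F') X = cn G F X := by
    have := cn_sdiff G (inter_subset_left : F ∩ F' ⊆ F) X
    rwa [sdiff_inter_self_left] at this
  have h3 : cn G (F' \ F) X + cn G (F ∩ F') X = cn G F' X := by
    have := cn_sdiff G (inter_subset_right : F ∩ F' ⊆ F') X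
    rwa [inter_comm, sdiff_inter_self_left, inter_comm] at this
  exact ⟨cn G F X + cn G F' X - cn G (F ∩ F') X, by omega⟩

/-- edge sets outside `A` with prescribed parities -/
theorem exists_join (h : T_PTH) (G : Gr V E) (B : Finset E) (ω : V → V)
    (hω : ∀ v, Co G B v (ω v)) (S : Finset V) :
    ∃ Jo : Finset E, Jo ⊆ B ∧ ∀ w : V, Even (cn G Jo {w} +
      ((S.filter (fun v => v = w)).card + (S.filter (fun v => ω v = w)).card)) := by
  classical
  induction S using Finset.induction_on with
  | empty =>
    refine ⟨∅, empty_subset _, fun w => ?_⟩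
    simp [cn]
  | insert v S hv ih =>
    obtain ⟨Jo, hJ, hpar⟩ := ih
    obtain ⟨F, hF, hP⟩ := pt_exists (hω v)
    obtain ⟨_, _, _, _, h5, _, _⟩ := h V E G F v (ω v) hP
    refine ⟨(Jo \ F) ∪ (F \ Jo), ?_, fun w => ?_⟩
    · intro e he
      rcases mem_union.1 he with he | he
      · exact hJ (mem_sdiff.1 he).1
      · exact hF (mem_sdiff.1 he).1
    · have k1 := cn_symmDiff G Jo F {w}
      have k2 := hpar w
      have k3 := h5 w
      have k4 : ((insert v S).filter (fun x => x = w)).card =
          (S.filter (fun x => x = w)).card + (if v = w then 1 else 0) := by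
        rw [filter_insert]
        split_ifs with hif
        · rw [card_insert_of_notMem (fun hm => hv (mem_filter.1 hm).1)]
        · rw [add_zero]
      have k5 : ((insert v S).filter (fun x => ω x = w)).card =
          (S.filter (fun x => ω x = w)).card + (if ω v = w then 1 else 0) := by
        rw [filter_insert]
        split_ifs with hif
        · rw [card_insert_of_notMem (fun hm => hv (mem_filter.1 hm).1)]
        · rw [add_zero]
      have k6 : Even (sep v (ω v) {w} + ((if v = w then 1 else 0) + (if ω v = w then 1 else 0))) := by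
        unfold sep
        simp only [mem_singleton]
        split_ifs <;> first | exact ⟨0, rfl⟩ | exact ⟨1, rfl⟩ | (exfalso; tauto)
      rw [k4, k5]
      obtain ⟨m1, m1'⟩ := k1
      obtain ⟨m2, m2'⟩ := k2
      obtain ⟨m3, m3'⟩ := k3
      obtain ⟨m6, m6'⟩ := k6
      rw [← Nat.not_odd_iff_even]
      rintro ⟨j, hj⟩
      omega

end

/-- total degree -/
def td {V E I : Type} [Fintype V] [DecidableEq V] (G : Gr V E) (A : Finset E) (a b : I → V)
    (J : Finset I) (v : V) : ℕ := cn G A {v} + tk a b J v

/-- the general form -/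
def T_GEN : Prop := ∀ (V E I : Type) [Fintype V] [DecidableEq V] [DecidableEq E]
  [DecidableEq I] (G : Gr V E) (A B : Finset E) (a b : I → V) (J : Finset I) (k : ℕ)
  (ω : V → V), Disjoint A B → (∀ v, Co G B v (ω v)) →
  (∀ X : Finset V,
    (∃ w ∈ X, tk a b J w ≠ 0 ∨
      Odd (∑ v ∈ univ.filter (fun v => ω v = w), td G (A ∪ B) a b J v)) →
    (∃ w, w ∉ X ∧ (tk a b J w ≠ 0 ∨
      Odd (∑ v ∈ univ.filter (fun v => ω v = w), td G (A ∪ B) a b J v))) →
    2 * k ≤ cn G A X) →
  2 * J.card + (univ.filter (fun w : V =>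
    Odd (∑ v ∈ univ.filter (fun v => ω v = w), td G (A ∪ B) a b J v))).card ≤ 4 * k + 2 →
  DC G (A ∪ B) a b J

theorem pf_GEN (h : T_PTH) (h1 : T_TAUU) : T_GEN := by
  classical
  intro V E I _ _ _ _ G A B a b J k ω hAB hω hcut hτ
  let S : Finset V := univ.filter (fun v => Odd (td G (A ∪ B) a b J v))
  obtain ⟨Jo, hJB, hpar⟩ := exists_join h G B ω hω S
  have hJs : Jo ⊆ A ∪ B := hJB.trans subset_union_right
  have hAs : A ⊆ (A ∪ B) \ Jo := by
    intro e he
    exact mem_sdiff.2 ⟨mem_union_left _ he, fun h => disjoint_left.1 hAB he (hJB h)⟩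
  -- parity in the remaining graph
  have hkey : ∀ w, (Odd (cn G ((A ∪ B) \ Jo) {w} + tk a b J w) ↔
      Odd (∑ v ∈ univ.filter (fun v => ω v = w), td G (A ∪ B) a b J v)) := by
    intro w
    have k1 := cn_sdiff G hJs {w}
    have k2 := hpar w
    have k3 : Even ((S.filter (fun v => v = w)).card + td G (A ∪ B) a b J w) := by
      by_cases hw : w ∈ S
      · have : S.filter (fun v => v = w) = {w} := by
          ext x
          rw [mem_filter, mem_singleton]
          exact ⟨fun h => h.2, fun h => ⟨h ▸ hw, h⟩⟩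
        rw [this, card_singleton]
        have hodd : Odd (td G (A ∪ B) a b J w) := (mem_filter.1 hw).2
        rw [add_comm]
        exact hodd.add_one
      · have : S.filter (fun v => v = w) = ∅ := by
          rw [filter_eq_empty_iff]
          intro x hx hxw
          exact hw (hxw ▸ hx)
        rw [this, card_empty, zero_add]
        by_contra hcon
        exact hw (mem_filter.2 ⟨mem_univ w, Nat.not_even_iff_odd.1 hcon⟩)
    have k4 : (Even (∑ v ∈ univ.filter (fun v => ω v = w), td G (A ∪ B) a b J v) ↔
        Even (S.filter (fun v => ω v = w)).card) := by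
      rw [even_sum_iff_even_card_odd]
      have : (univ.filter (fun v => ω v = w)).filter (fun v => Odd (td G (A ∪ B) a b J v)) =
          S.filter (fun v => ω v = w) := by
        ext x
        simp only [S, mem_filter, mem_univ, true_and]
        tauto
      rw [this]
    have k5 : td G (A ∪ B) a b J w = cn G (A ∪ B) {w} + tk a b J w := rfl
    rw [← Nat.not_even_iff_odd, ← Nat.not_even_iff_odd, not_iff_not, k4]
    rw [k5] at k3
    constructor
    · rintro ⟨j, hj⟩
      obtain ⟨m2, m2'⟩ := k2
      obtain ⟨m3, m3'⟩ := k3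
      rw [← Nat.not_odd_iff_even]
      rintro ⟨i, hi⟩
      omega
    · rintro ⟨j, hj⟩
      obtain ⟨m2, m2'⟩ := k2
      obtain ⟨m3, m3'⟩ := k3
      rw [← Nat.not_odd_iff_even]
      rintro ⟨i, hi⟩
      omega
  have hDC : DC G ((A ∪ B) \ Jo) a b J := by
    refine h1 V E I G ((A ∪ B) \ Jo) a b J k ?_ ?_
    · rintro X ⟨x, hx, hx'⟩ ⟨y, hy, hy'⟩
      refine le_trans (hcut X ⟨x, hx, ?_⟩ ⟨y, hy, ?_⟩) (cn_mono G hAs X)
      · rw [← hkey]; exact hx'
      · rw [← hkey]; exact hy'
    · refine le_trans (le_of_eq ?_) hτ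
      congr 2
      apply filter_congr
      intro w _
      exact hkey w
  obtain ⟨F, hF1, hF2, hF3⟩ := hDC
  exact ⟨F, fun i hi => (hF1 i hi).trans sdiff_subset, hF2, hF3⟩

end Pool.Agent.H71.WE
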