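import Pool.Agent.H71.WE.Targets

/-!
# Row LFT: lifting
-/

set_option autoImplicit false
set_option linter.unusedSectionVars false

namespace Pool.Agent.H71.WE

open Finset

theorem pf_LFT : T_LFT := by
  classical
  intro V E V' E' _ _ _ _ _ _ G A G' A' f φ h
  have key : ∀ (e : E') (X : Finset V), e ∈ A' → Cr G' (pre f X) e → ∃ g ∈ φ e, Cr G X g := by
    intro e X he hcr
    have h1 := h.con e he
    unfold Cr pre at hcr
    simp only [mem_filter, mem_univ, true_and] at hcr
    rcases hcr with ⟨h2, h3⟩ | ⟨h2, h3⟩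
    · exact h1 X h2 h3
    · exact co_symm h1 X h3 h2
  refine ⟨?_, ?_, ?_⟩
  · intro F' hF' a b hc X ha hb
    obtain ⟨e, he, hcr⟩ := hc (pre f X) (by unfold pre; simpa using ha)
      (by unfold pre; simpa using hb)
    obtain ⟨g, hg, hg2⟩ := key e X (hF' he) hcr
    exact ⟨g, mem_biUnion.2 ⟨e, he, hg⟩, hg2⟩
  · intro F' hF' X
    unfold cn
    have hch : ∀ e ∈ (A' \ F').filter (fun e => Cr G' (pre f X) e), ∃ g, g ∈ φ e ∧ Cr G X g := by
      intro e he
      obtain ⟨h1, h2⟩ := mem_filter.1 he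
      obtain ⟨g, hg1, hg2⟩ := key e X (mem_sdiff.1 h1).1 h2
      exact ⟨g, hg1, hg2⟩
    rcases ((A' \ F').filter (fun e => Cr G' (pre f X) e)).eq_empty_or_nonempty with h0 | ⟨e0, h0⟩
    · rw [h0, card_empty]
      exact Nat.zero_le _
    haveI : Nonempty E := by
      obtain ⟨g, _⟩ := hch e0 h0
      exact ⟨g⟩
    choose! ψ hψ1 hψ2 using hch
    refine card_le_card_of_injOn ψ ?_ ?_
    · intro e he
      have he' := mem_coe.1 he
      obtain ⟨h1, h2⟩ := mem_filter.1 he'
      obtain ⟨h3, h4⟩ := mem_sdiff.1 h1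
      apply mem_coe.2
      refine mem_filter.2 ⟨mem_sdiff.2 ⟨h.sub e h3 (hψ1 e he'), ?_⟩, hψ2 e he'⟩
      intro hb
      obtain ⟨e', he'F, hb2⟩ := mem_biUnion.1 hb
      have hne : e ≠ e' := by
        rintro rfl
        exact h4 he'F
      exact disjoint_left.1 (h.dis e h3 e' (hF' he'F) hne) (hψ1 e he') hb2
    · intro e he e' he' heq
      by_contra hne
      have he2 := mem_coe.1 he
      have he3 := mem_coe.1 he'
      obtain ⟨h1, _⟩ := mem_filter.1 he2
      obtain ⟨h1', _⟩ := mem_filter.1 he3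
      refine disjoint_left.1 (h.dis e (mem_sdiff.1 h1).1 e' (mem_sdiff.1 h1').1 hne)
        (hψ1 e he2) ?_
      rw [heq]
      exact hψ1 e' he3
  · intro F1 F2 hF1 hF2 hd
    rw [disjoint_left]
    intro g hg hg'
    obtain ⟨e, he, hg1⟩ := mem_biUnion.1 hg
    obtain ⟨e', he', hg2⟩ := mem_biUnion.1 hg'
    have hne : e ≠ e' := by
      rintro rfl
      exact disjoint_left.1 hd he he'
    exact disjoint_left.1 (h.dis e (hF1 he) e' (hF2 he') hne) hg1 hg2

end Pool.Agent.H71.WE
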