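import Pool.Agent.H71.WE.Targets

/-!
# Row PTH: minimal connecting sets are paths
-/

set_option autoImplicit false
set_option linter.unusedSectionVars false

namespace Pool.Agent.H71.WE

open Finset

section
variable {V E : Type} [Fintype V] [DecidableEq V] [DecidableEq E]

theorem jn_unique {G : Gr V E} {g : E} {a x y : V} (h1 : Jn G g a x) (h2 : Jn G g a y) :
    x = y := by
  rcases h1 with ⟨h1, h1'⟩ | ⟨h1, h1'⟩ <;> rcases h2 with ⟨h2, h2'⟩ | ⟨h2, h2'⟩
  · exact h1'.symm.trans h2'
  · rw [← h1', h2', ← h1, h2]
  · rw [← h1, h2, ← h1', h2']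
  · exact h1.symm.trans h2

/-- the first edge of a path -/
theorem pt_first {G : Gr V E} {F : Finset E} {a b : V} (h : Pt G F a b) (hab : a ≠ b) :
    ∃ g ∈ F, ∃ x, x ≠ a ∧ Jn G g a x ∧ Pt G (F.erase g) x b ∧
      ∀ h ∈ F.erase g, G.s h ≠ a ∧ G.t h ≠ a := by
  classical
  obtain ⟨hc, hmin⟩ := h
  let F' : Finset E := F.filter (fun g => G.s g ≠ a ∧ G.t g ≠ a)
  let C : Finset V := univ.filter (fun y => Co G F' y b)
  have hbC : b ∈ C := mem_filter.2 ⟨mem_univ _, co_refl G F' b⟩
  have haC : a ∉ C := by
    intro ha
    have ha' := (mem_filter.1 ha).2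
    obtain ⟨e, he, hcr⟩ := ha' {a} (mem_singleton_self a) (by
      rw [mem_singleton]; exact fun h => hab h.symm)
    obtain ⟨h1, h2, h3⟩ := mem_filter.1 he
    rcases hcr with ⟨h4, _⟩ | ⟨_, h4⟩
    · exact h2 (mem_singleton.1 h4)
    · exact h3 (mem_singleton.1 h4)
  obtain ⟨g, hg, hcr⟩ := hc Cᶜ (mem_compl.2 haC) (by simpa using hbC)
  rw [cr_compl] at hcr
  -- the two ends
  have hx : ∃ x y, x ∈ C ∧ y ∉ C ∧ Jn G g y x := by
    rcases hcr with ⟨h1, h2⟩ | ⟨h1, h2⟩
    · exact ⟨_, _, h1, h2, Or.inr ⟨rfl, rfl⟩⟩
    · exact ⟨_, _, h2, h1, Or.inl ⟨rfl, rfl⟩⟩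
  obtain ⟨x, y, hxC, hyC, hj⟩ := hx
  have hxco : Co G F' x b := (mem_filter.1 hxC).2
  have hxa : x ≠ a := fun h => haC (h ▸ hxC)
  have hya : y = a := by
    by_contra hya
    apply hyC
    refine mem_filter.2 ⟨mem_univ _, ?_⟩
    have hg' : g ∈ F' := by
      refine mem_filter.2 ⟨hg, ?_⟩
      rcases hj with ⟨h1, h2⟩ | ⟨h1, h2⟩
      · rw [h1, h2]; exact ⟨hya, hxa⟩
      · rw [h1, h2]; exact ⟨hxa, hya⟩
    have h1 := co_trans (co_edge hj) hxco
    refine co_mono ?_ h1
    intro e he
    rcases mem_union.1 he with he | he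
    · rw [mem_singleton.1 he]; exact hg'
    · exact he
  subst hya
  have hgF' : g ∉ F' := by
    intro h
    obtain ⟨_, h2, h3⟩ := mem_filter.1 h
    rcases hj with ⟨h4, _⟩ | ⟨_, h4⟩
    · exact h2 h4
    · exact h3 h4
  have hall : ∀ h ∈ F, h = g ∨ h ∈ F' := by
    intro h hh
    by_contra hcon
    push Not at hcon
    apply hmin h hh
    refine co_mono ?_ (co_trans (co_edge hj) hxco)
    intro e he
    rcases mem_union.1 he with he | he
    · rw [mem_singleton.1 he]; exact mem_erase.2 ⟨hcon.1.symm, hg⟩
    · exact mem_erase.2 ⟨fun h' => hcon.2 (h' ▸ he), (mem_filter.1 he).1⟩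
  have hF' : F.erase g = F' := by
    ext h
    constructor
    · intro hh
      obtain ⟨h1, h2⟩ := mem_erase.1 hh
      rcases hall h h2 with h3 | h3
      · exact absurd h3 h1
      · exact h3
    · intro hh
      exact mem_erase.2 ⟨fun h' => hgF' (h' ▸ hh), (mem_filter.1 hh).1⟩
  refine ⟨g, hg, x, hxa, hj, ?_, ?_⟩
  · rw [hF']
    refine ⟨hxco, ?_⟩
    intro h hh hco
    apply hmin h (mem_filter.1 hh).1
    refine co_mono ?_ (co_trans (co_edge hj) hco)
    intro e he
    rcases mem_union.1 he with he | he
    · rw [mem_singleton.1 he]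
      exact mem_erase.2 ⟨fun h' => hgF' (h' ▸ hh), hg⟩
    · obtain ⟨h1, h2⟩ := mem_erase.1 he
      exact mem_erase.2 ⟨h1, (mem_filter.1 h2).1⟩
  · rw [hF']
    intro h hh
    exact (mem_filter.1 hh).2

theorem cn_erase {G : Gr V E} {F : Finset E} {g : E} (hg : g ∈ F) (X : Finset V) :
    cn G F X = cn G (F.erase g) X + (if Cr G X g then 1 else 0) := by
  have h := cn_sdiff G (singleton_subset_iff.2 hg) X
  rw [sdiff_singleton_eq_erase] at h
  rw [← h]
  congr 1
  unfold cn
  rw [filter_singleton]
  split_ifs <;> simp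

theorem cn_zero {G : Gr V E} {F : Finset E} {a : V} (h : ∀ g ∈ F, G.s g ≠ a ∧ G.t g ≠ a) :
    cn G F {a} = 0 := by
  unfold cn
  rw [card_eq_zero, filter_eq_empty_iff]
  intro g hg hcr
  obtain ⟨h1, h2⟩ := h g hg
  rcases hcr with ⟨h3, _⟩ | ⟨_, h3⟩
  · exact h1 (mem_singleton.1 h3)
  · exact h2 (mem_singleton.1 h3)

theorem pt_empty {G : Gr V E} {F : Finset E} {a : V} (h : Pt G F a a) : F = ∅ := by
  rw [eq_empty_iff_forall_notMem]
  intro g hg
  exact h.2 g hg (co_refl G _ a)

theorem pt_all {G : Gr V E} (n : ℕ) : ∀ (F : Finset E) (a b : V), F.card = n → Pt G F a b →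
    (∀ g ∈ F, G.s g ≠ G.t g) ∧ (∀ x, cn G F {x} ≤ 2) ∧ cn G F {a} ≤ 1 ∧ cn G F {b} ≤ 1 ∧
    (∀ x, Even (cn G F {x} + sep a b {x})) ∧
    (∀ x, (∃ g ∈ F, G.s g = x ∨ G.t g = x) → ∃ F1, F1 ⊆ F ∧ Co G F1 a x ∧
      Co G (F \ F1) x b) ∧
    (∀ g ∈ F, ∀ x, Jn G g a x → Co G (F.erase g) x b) := by
  induction n using Nat.strong_induction_on with
  | _ n ih =>
    intro F a b hn hP
    by_cases hab : a = b
    · subst hab
      have hF := pt_empty hP
      subst hF
      refine ⟨by simp, by simp [cn], by simp [cn], by simp [cn], ?_, by simp, by simp⟩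
      intro x
      simp only [cn, filter_empty, card_empty, zero_add, sep]
      rw [if_neg (by tauto)]
      exact Even.zero
    · obtain ⟨g, hg, x, hxa, hj, hP', hno⟩ := pt_first hP hab
      have hlt : (F.erase g).card < n := by rw [← hn]; exact card_erase_lt_of_mem hg
      obtain ⟨i1, i2, i3, i4, i5, i6, i7⟩ := ih _ hlt (F.erase g) x b rfl hP'
      have ha0 := cn_zero hno
      have hcr : ∀ y, (Cr G {y} g ↔ (a = y ∧ x ≠ y) ∨ (a ≠ y ∧ x = y)) := by
        intro y
        rw [jn_cr hj]
        simp only [mem_singleton]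
      refine ⟨?_, ?_, ?_, ?_, ?_, ?_, ?_⟩
      · intro h hh
        by_cases hhg : h = g
        · subst hhg
          rcases hj with ⟨h1, h2⟩ | ⟨h1, h2⟩
          · rw [h1, h2]; exact hxa.symm
          · rw [h1, h2]; exact hxa
        · exact i1 h (mem_erase.2 ⟨hhg, hh⟩)
      · intro y
        rw [cn_erase hg]
        by_cases hya : a = y
        · subst hya
          rw [ha0]
          split_ifs <;> omega
        · by_cases hyx : x = y
          · subst hyx
            split_ifs <;> omega
          · rw [if_neg]
            · have := i2 y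
              omega
            · rw [hcr]; tauto
      · rw [cn_erase hg, ha0]
        split_ifs <;> omega
      · rw [cn_erase hg]
        by_cases hbx : x = b
        · subst hbx
          rw [pt_empty hP']
          simp only [cn, filter_empty, card_empty]
          split_ifs <;> omega
        · rw [if_neg]
          · omega
          · rw [hcr]; tauto
      · intro y
        rw [cn_erase hg]
        have h5 := i5 y
        by_cases h : Cr G {y} g
        · rw [if_pos h]
          rw [hcr] at h
          have e1 : sep a b {y} + 1 = sep x b {y} ∨ sep a b {y} = sep x b {y} + 1 := by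
            unfold sep
            simp only [mem_singleton]
            rcases h with ⟨h1, h2⟩ | ⟨h1, h2⟩
            · subst h1
              by_cases hb : b = a
              · exact absurd hb.symm hab
              · simp [h2, hb]
            · subst h2
              by_cases hb : b = x
              · simp [h1, hb]
              · simp [h1, hb]
          rcases e1 with e1 | e1
          · rw [← e1] at h5
            obtain ⟨q, hq⟩ := h5
            exact ⟨q, by omega⟩
          · rw [e1]
            obtain ⟨q, hq⟩ := h5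
            exact ⟨q + 1, by omega⟩
        · rw [if_neg h]
          rw [hcr] at h
          have e1 : sep a b {y} = sep x b {y} := by
            unfold sep
            simp only [mem_singleton]
            by_cases h1 : a = y
            · have h2 : x = y := by
                by_contra h2
                exact h (Or.inl ⟨h1, h2⟩)
              simp [h1, h2]
            · have h2 : x ≠ y := fun h2 => h (Or.inr ⟨h1, h2⟩)
              simp [h1, h2]
          rw [e1]
          simpa using h5
      · rintro y ⟨h, hh, hy⟩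
        by_cases hya : y = a
        · subst hya
          exact ⟨∅, empty_subset _, co_refl G ∅ y, by rw [sdiff_empty]; exact hP.1⟩
        · by_cases hhg : h = g
          · have hyx : y = x := by
              subst hhg
              rcases hj with ⟨h1, h2⟩ | ⟨h1, h2⟩
              · rcases hy with hy | hy
                · exact absurd (hy.symm.trans h1) hya
                · exact hy.symm.trans h2
              · rcases hy with hy | hy
                · exact hy.symm.trans h1
                · exact absurd (hy.symm.trans h2) hya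
            subst hyx
            refine ⟨{g}, singleton_subset_iff.2 hg, co_edge hj, ?_⟩
            rw [sdiff_singleton_eq_erase]
            exact hP'.1
          · obtain ⟨F1, hF1, hF2, hF3⟩ := i6 y ⟨h, mem_erase.2 ⟨hhg, hh⟩, hy⟩
            refine ⟨{g} ∪ F1, ?_, co_trans (co_edge hj) hF2, ?_⟩
            · intro e he
              rcases mem_union.1 he with he | he
              · rw [mem_singleton.1 he]; exact hg
              · exact (mem_erase.1 (hF1 he)).2
            · refine co_mono ?_ hF3
              intro e he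
              obtain ⟨h1, h2⟩ := mem_sdiff.1 he
              obtain ⟨h3, h4⟩ := mem_erase.1 h1
              refine mem_sdiff.2 ⟨h4, ?_⟩
              rw [mem_union, mem_singleton]
              tauto
      · intro h hh y hjy
        have hhg : h = g := by
          by_contra hne
          obtain ⟨h1, h2⟩ := hno h (mem_erase.2 ⟨hne, hh⟩)
          rcases hjy with ⟨h3, _⟩ | ⟨_, h3⟩
          · exact h1 h3
          · exact h2 h3
        subst hhg
        rw [jn_unique hjy hj]
        exact hP'.1

end

theorem pf_PTH : T_PTH := by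
  intro V E _ _ _ G F a b hP
  exact pt_all F.card F a b rfl hP

end Pool.Agent.H71.WE
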