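import Pool.Agent.H71.WE.Q
import Pool.Agent.H71.WE.E
import Pool.Agent.H71.WE.GS
import Pool.Agent.H71.WE.D
import Pool.Agent.H71.WE.Fin
import Pool.Agent.H71.WE.PTH
import Pool.Agent.H71.WE.CS1
import Pool.Agent.H71.WE.CSP
import Pool.Agent.H71.WE.LFT
import Pool.Agent.H91.WE.ADM
import Pool.Agent.H91.WE.G1
import Pool.Agent.H91.WE.OT
import Pool.Agent.H50.WE.CTR
import Pool.Agent.H50.WE.SEP
import Pool.Agent.H67.WE.CUT
import Pool.Agent.H67.WE.CUX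
import Pool.Agent.H67.WE.RQ
import Pool.Agent.H69.WE.D0
import Pool.Agent.H69.WE.G0
import Pool.Agent.H59.WE.DA
import Pool.Agent.H59.WE.GRE
import Pool.Agent.H85.WE.DB
import Pool.Agent.H85.WE.DS
import Pool.Agent.H17.WEE.E1A
import Pool.Agent.H17.WEE.TRN
import Pool.Agent.H66.WE.E1B
import Pool.Agent.H66.WE.E4
import Pool.Agent.H88.WE.Split
import Pool.Agent.H62.WE.E3A
import Pool.Agent.H80.WE.E3B
import Pool.Agent.H80.WE.QCT
import Pool.Agent.H25.WE.G0Q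
import Pool.Agent.H25.WE.QTV
import Pool.Agent.H57.WE.GB2
import Pool.Agent.H57.WE.GB3
import Pool.Agent.H57.WE.GA
import Pool.Agent.H75.WE.TAU
import Pool.Agent.H71.WE.DU
import Pool.Agent.H71.WE.Gen

/-!
# Assembly of the Eulerian linkage theorem
-/

set_option autoImplicit false

namespace Pool.Agent.H71.WE.All

open Pool.Agent.H71.WE

theorem cut : T_CUT := Pool.Agent.H67.WE.pf_CUT
theorem cux : T_CUX := Pool.Agent.H67.WE.pf_CUX
theorem sep : T_SEP := Pool.Agent.H50.WE.pf_SEP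
theorem glu : T_GLU := Pool.Agent.H50.WE.pf_GLU
theorem rq : T_RQ := Pool.Agent.H67.WE.pf_RQ
theorem adm : T_ADM := Pool.Agent.H91.WE.pf_ADM cut cux
theorem adx : T_ADX := Pool.Agent.H91.WE.pf_ADX cut cux
theorem sp1 : T_SP1 := Pool.Agent.H91.WE.pf_SP1
theorem lft : T_LFT := Pool.Agent.H71.WE.pf_LFT
theorem cs1 : T_CS1 := Pool.Agent.H71.WE.pf_CS1 adm sp1
theorem csp : T_CSP := Pool.Agent.H71.WE.pf_CSP cs1 lft
theorem res : T_RES := Pool.Agent.H50.WE.pf_RES lft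
theorem ctr : T_CTR := Pool.Agent.H50.WE.pf_CTR
theorem trn : T_TRN := Pool.Agent.H17.WEE.pf_TRN
theorem pth : T_PTH := Pool.Agent.H71.WE.pf_PTH
theorem qtv : T_QTV := Pool.Agent.H25.WE.pf_QTV cut cux
theorem qsp : T_QSP := Pool.Agent.H88.WE.pf_QSP rq csp lft pth res
theorem q : T_Q := Pool.Agent.H71.WE.pf_Q qtv qsp
theorem qct : T_QCT := Pool.Agent.H80.WE.pf_QCT q ctr trn
theorem e0 : T_E0 := Pool.Agent.H50.WE.pf_E0
theorem e1a : T_E1A := Pool.Agent.H17.WEE.pf_E1A cut sep glu ctr trn pth qct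
theorem e1b : T_E1B := Pool.Agent.H66.WE.pf_E1B cut sep glu ctr trn pth qct
theorem e2a : T_E2A := Pool.Agent.H88.WE.pf_E2A rq csp lft pth res
theorem e2b : T_E2B := Pool.Agent.H88.WE.pf_E2B rq csp lft pth res
theorem e3a : T_E3A := Pool.Agent.H62.WE.pf_E3A cut sep glu ctr trn
theorem e3b : T_E3B := Pool.Agent.H80.WE.pf_E3B cut sep glu ctr trn pth
theorem e4 : T_E4 := Pool.Agent.H66.WE.pf_E4
theorem e5 : T_E5 := Pool.Agent.H66.WE.pf_E5
theorem e : T_E := Pool.Agent.H71.WE.pf_E e0 e1a e1b e2a e2b e3a e3b e4 e5 ctr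
theorem g1 : T_G1 := Pool.Agent.H91.WE.pf_G1
theorem g0t : T_G0T := Pool.Agent.H91.WE.pf_G0T g1
theorem g0q : T_G0Q := Pool.Agent.H25.WE.pf_G0Q
theorem g0 : T_G0 := Pool.Agent.H69.WE.pf_G0 adx sp1 g0t g0q
theorem gq : T_GQ := Pool.Agent.H91.WE.pf_GQ q
theorem gre : T_GRE := Pool.Agent.H59.WE.pf_GRE pth e
theorem gb1 : T_GB1 := Pool.Agent.H91.WE.pf_GB1
theorem gb2 : T_GB2 := Pool.Agent.H57.WE.pf_GB2 cut glu ctr trn qct
theorem gb3 : T_GB3 := Pool.Agent.H57.WE.pf_GB3 cut glu qct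
theorem ga : T_GA := Pool.Agent.H57.WE.pf_GA rq csp lft pth res
theorem gs : T_GS := Pool.Agent.H71.WE.pf_GS g0 gq gre ga gb1 gb2 gb3 ctr
theorem ot : T_OT := Pool.Agent.H91.WE.pf_OT gs
theorem d0 : T_D0 := Pool.Agent.H69.WE.pf_D0 cux
theorem dt : T_DT := Pool.Agent.H50.WE.pf_DT
theorem da : T_DA := Pool.Agent.H59.WE.pf_DA ot pth
theorem ds : T_DS := Pool.Agent.H85.WE.pf_DS rq csp lft
theorem db : T_DB := Pool.Agent.H85.WE.pf_DB rq csp lft cut cux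
theorem d : T_D := Pool.Agent.H71.WE.pf_D d0 dt da ds db
theorem tau : T_TAU := Pool.Agent.H75.WE.pf_TAU d cux
theorem du : T_DU := Pool.Agent.H71.WE.pf_DU d cut cux sp1 lft
theorem tauu : T_TAUU := Pool.Agent.H71.WE.pf_TAUU du cux
theorem gen : T_GEN := Pool.Agent.H71.WE.pf_GEN pth tauu

end Pool.Agent.H71.WE.All
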