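import Pool.Agent.H71.WE.Defs

/-!
# Edge-disjoint paths: elementary facts about `Co`, `Pt`, `Jn`, `cn`
-/

set_option autoImplicit false
set_option linter.unusedSectionVars false

namespace Pool.Agent.H71.WE

open Finset

section
variable {V E : Type} [Fintype V] [DecidableEq V] [DecidableEq E]

theorem cr_compl (G : Gr V E) (X : Finset V) (e : E) : Cr G Xᶜ e ↔ Cr G X e := by
  unfold Cr; simp only [mem_compl]; tauto

theorem cn_compl (G : Gr V E) (A : Finset E) (X : Finset V) : cn G A Xᶜ = cn G A X := by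
  unfold cn; congr 1; exact filter_congr (fun e _ => cr_compl G X e)

theorem cn_mono (G : Gr V E) {A B : Finset E} (h : A ⊆ B) (X : Finset V) :
    cn G A X ≤ cn G B X := card_le_card (filter_subset_filter _ h)

theorem cn_sdiff (G : Gr V E) {A F : Finset E} (h : F ⊆ A) (X : Finset V) :
    cn G (A \ F) X + cn G F X = cn G A X := by
  unfold cn
  rw [← card_union_of_disjoint (disjoint_filter_filter sdiff_disjoint), ← filter_union,
    sdiff_union_of_subset h]

theorem co_symm {G : Gr V E} {F : Finset E} {a b : V} (h : Co G F a b) : Co G F b a := by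
  intro X hb ha
  obtain ⟨e, he, hc⟩ := h Xᶜ (mem_compl.2 ha) (by simpa using hb)
  exact ⟨e, he, (cr_compl G X e).1 hc⟩

theorem co_mono {G : Gr V E} {F F' : Finset E} {a b : V} (hs : F ⊆ F') (h : Co G F a b) :
    Co G F' a b := by
  intro X ha hb
  obtain ⟨e, he, hc⟩ := h X ha hb
  exact ⟨e, hs he, hc⟩

theorem co_refl (G : Gr V E) (F : Finset E) (a : V) : Co G F a a :=
  fun _ ha hb => absurd ha hb

theorem co_trans {G : Gr V E} {F F' : Finset E} {a b c : V} (h : Co G F a b)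
    (h' : Co G F' b c) : Co G (F ∪ F') a c := by
  intro X ha hc
  by_cases hb : b ∈ X
  · obtain ⟨e, he, hcr⟩ := h' X hb hc
    exact ⟨e, mem_union_right _ he, hcr⟩
  · obtain ⟨e, he, hcr⟩ := h X ha hb
    exact ⟨e, mem_union_left _ he, hcr⟩

theorem jn_symm {G : Gr V E} {e : E} {a b : V} (h : Jn G e a b) : Jn G e b a := by
  unfold Jn at *; tauto

theorem jn_cr {G : Gr V E} {e : E} {a b : V} (h : Jn G e a b) (X : Finset V) :
    Cr G X e ↔ (a ∈ X ∧ b ∉ X) ∨ (a ∉ X ∧ b ∈ X) := by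
  rcases h with ⟨h1, h2⟩ | ⟨h1, h2⟩
  · unfold Cr; rw [h1, h2]
  · unfold Cr; rw [h1, h2]; tauto

theorem co_edge {G : Gr V E} {e : E} {a b : V} (h : Jn G e a b) : Co G {e} a b :=
  fun X ha hb => ⟨e, mem_singleton_self e, (jn_cr h X).2 (Or.inl ⟨ha, hb⟩)⟩

/-- a connecting set contains a minimal one -/
theorem pt_exists {G : Gr V E} {F : Finset E} {a b : V} (h : Co G F a b) :
    ∃ F0, F0 ⊆ F ∧ Pt G F0 a b := by
  classical
  have hne : (F.powerset.filter (fun F0 => Co G F0 a b)).Nonempty :=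
    ⟨F, mem_filter.2 ⟨mem_powerset.2 (Subset.refl F), h⟩⟩
  obtain ⟨F0, hF0, hmin⟩ := exists_min_image _ (fun F0 => F0.card) hne
  rw [mem_filter, mem_powerset] at hF0
  refine ⟨F0, hF0.1, hF0.2, ?_⟩
  intro g hg hco
  have := hmin (F0.erase g)
    (mem_filter.2 ⟨mem_powerset.2 ((erase_subset g F0).trans hF0.1), hco⟩)
  rw [card_erase_of_mem hg] at this
  have hpos : 0 < F0.card := card_pos.2 ⟨g, hg⟩
  omega

theorem pt_symm {G : Gr V E} {F : Finset E} {a b : V} (h : Pt G F a b) : Pt G F b a :=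
  ⟨co_symm h.1, fun g hg hc => h.2 g hg (co_symm hc)⟩

theorem ec_mono {G : Gr V E} {A B : Finset E} {c : ℕ} (hs : A ⊆ B) (h : Ec G A c) :
    Ec G B c := fun X h1 h2 => (h X h1 h2).trans (cn_mono G hs X)

theorem gh_swap {G : Gr V E} {A : Finset E} {r : ℕ} {y y' a b : V} {e t : E}
    (h : GH G A r y y' a b e t) : GH G A r y' y a b e t := by
  obtain ⟨h1, h2, h3, h4, h5, h6, h7, h8, h9⟩ := h
  exact ⟨h1, h2, h3, h4, h5, h6.symm, h7, jn_symm h8, h9⟩

theorem gh_swap2 {G : Gr V E} {A : Finset E} {r : ℕ} {y y' a b : V} {e t : E}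
    (h : GH G A r y y' a b e t) : GH G A r y y' b a e t := by
  obtain ⟨h1, h2, h3, h4, h5, h6, h7, h8, h9⟩ := h
  exact ⟨h1, h2, h3, h4, h5, h6, h7.symm, h8, jn_symm h9⟩

theorem gc_swap {G : Gr V E} {A : Finset E} {r : ℕ} {y y' a b : V} {e t : E}
    (h : GC G A r y y' a b e t) : GC G A r y' y a b e t := by
  obtain ⟨P, Q, h1, h2, h3, h4, h5, h6, h7, h8, h9⟩ := h
  refine ⟨Q, P, h2, h1, h3.symm, h5, h4, h7, h6, ?_, ?_⟩
  · rcases h8 with ⟨h8, h8'⟩ | ⟨h8, h8'⟩
    · exact Or.inr ⟨h8', h8⟩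
    · exact Or.inl ⟨h8', h8⟩
  · rw [union_comm Q P]; exact h9

theorem gc_swap2 {G : Gr V E} {A : Finset E} {r : ℕ} {y y' a b : V} {e t : E}
    (h : GC G A r y y' a b e t) : GC G A r y y' b a e t := by
  obtain ⟨P, Q, h1, h2, h3, h4, h5, h6, h7, h8, h9⟩ := h
  exact ⟨P, Q, h1, h2, h3, h4, h5, h6, h7, h8.symm, h9⟩

end

end Pool.Agent.H71.WE
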