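import Mathlib

/-!
# Edge-disjoint paths in multigraphs: definitions

A multigraph is given by the two end maps `s t : E → V` (loops and parallel edges are allowed);
a set `A : Finset E` of edges is the current edge set.  All vertex sets are `Finset V`.
-/

set_option autoImplicit false

namespace Pool.Agent.H71.WE

open Finset

/-- a multigraph (loops and parallel edges allowed) -/
structure Gr (V E : Type) where
  /-- first end -/
  s : E → V
  /-- second end -/
  t : E → V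

section
variable {V E : Type} [Fintype V] [DecidableEq V] [DecidableEq E]

/-- exactly one end of `e` is in `X` -/
def Cr (G : Gr V E) (X : Finset V) (e : E) : Prop :=
  (G.s e ∈ X ∧ G.t e ∉ X) ∨ (G.s e ∉ X ∧ G.t e ∈ X)

instance instDecCr (G : Gr V E) (X : Finset V) (e : E) : Decidable (Cr G X e) := by
  unfold Cr; infer_instance

/-- number of edges of `A` with exactly one end in `X` -/
def cn (G : Gr V E) (A : Finset E) (X : Finset V) : ℕ := (A.filter (fun e => Cr G X e)).card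

/-- every cut of `(G, A)` has at least `c` edges -/
def Ec (G : Gr V E) (A : Finset E) (c : ℕ) : Prop :=
  ∀ X : Finset V, X.Nonempty → X ≠ univ → c ≤ cn G A X

/-- `F` contains a path from `a` to `b` (cut form) -/
def Co (G : Gr V E) (F : Finset E) (a b : V) : Prop :=
  ∀ X : Finset V, a ∈ X → b ∉ X → ∃ e ∈ F, Cr G X e

/-- `F` is a minimal set containing a path from `a` to `b` -/
def Pt (G : Gr V E) (F : Finset E) (a b : V) : Prop :=
  Co G F a b ∧ ∀ g ∈ F, ¬ Co G (F.erase g) a b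

/-- the ends of `e` are `u` and `v` -/
def Jn (G : Gr V E) (e : E) (u v : V) : Prop :=
  (G.s e = u ∧ G.t e = v) ∨ (G.s e = v ∧ G.t e = u)

/-- 1 if `X` separates `a` and `b`, else 0 -/
def sep (a b : V) (X : Finset V) : ℕ := if (a ∈ X ∧ b ∉ X) ∨ (a ∉ X ∧ b ∈ X) then 1 else 0

/-- the properties of cut functions used in uncrossing -/
structure CF (g : Finset V → ℕ) : Prop where
  /-- symmetry -/
  sym : ∀ X : Finset V, g Xᶜ = g X
  /-- submodularity -/
  sub : ∀ X Y : Finset V, g (X ∩ Y) + g (X ∪ Y) ≤ g X + g Y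
  /-- posimodularity -/
  pos : ∀ X Y : Finset V, g (X \ Y) + g (Y \ X) ≤ g X + g Y
  /-- parity -/
  par : ∀ X Y : Finset V, Disjoint X Y → Even (g X + g Y + g (X ∪ Y))

/-- image of a multigraph under a map of the vertices -/
def mp {W : Type} (G : Gr V E) (f : V → W) : Gr W E := ⟨fun e => f (G.s e), fun e => f (G.t e)⟩

/-- preimage of a set of vertices -/
def pre {W : Type} [DecidableEq W] (f : V → W) (X : Finset W) : Finset V :=
  univ.filter (fun v => f v ∈ X)

/-- contraction of the set `S` to the new vertex `none` -/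
def ctr (S : Finset V) (v : V) : Option {x : V // x ∉ S} :=
  if h : v ∈ S then none else some ⟨v, h⟩

/-- the edge `p` gets the new ends `y`, `y'` -/
def spl (G : Gr V E) (p : E) (y y' : V) : Gr V E :=
  ⟨Function.update G.s p y, Function.update G.t p y'⟩

/-- `(G', A')` arises from `(G, A)` by replacing edge-disjoint connecting sets by edges: `f` maps
the new vertices to the old ones, `φ e` is the set of old edges used by the new edge `e` -/
structure Lf {V' E' : Type} (G : Gr V E) (A : Finset E) (G' : Gr V' E') (A' : Finset E')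
    (f : V' → V) (φ : E' → Finset E) : Prop where
  /-- the old edges are in `A` -/
  sub : ∀ e ∈ A', φ e ⊆ A
  /-- they connect the ends -/
  con : ∀ e ∈ A', Co G (φ e) (f (G'.s e)) (f (G'.t e))
  /-- they are disjoint -/
  dis : ∀ e ∈ A', ∀ e' ∈ A', e ≠ e' → Disjoint (φ e) (φ e')

/-- even, symmetric, crossing supermodular requirements on the subsets of `V - z` -/
structure Rq (z : V) (ρ : Finset V → ℕ) : Prop where
  /-- even values -/
  ev : ∀ X : Finset V, Even (ρ X)
  /-- symmetry in `V - z` -/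
  sym : ∀ X : Finset V, z ∉ X → ρ (Xᶜ.erase z) = ρ X
  /-- first inequality -/
  sub : ∀ X Y : Finset V, z ∉ X → z ∉ Y → ρ X + ρ Y ≤ ρ (X ∩ Y) + ρ (X ∪ Y)
  /-- second inequality -/
  pos : ∀ X Y : Finset V, z ∉ X → z ∉ Y → ρ X + ρ Y ≤ ρ (X \ Y) + ρ (Y \ X)

/-- the requirement `ρ_K`: `r + 2` for the sets which miss `K` or contain `K`, else `r` -/
def rK (K : Finset V) (r : ℕ) (X : Finset V) : ℕ := if Disjoint X K ∨ K ⊆ X then r + 2 else r

/-! ### The statement (Q) -/

/-- hypotheses of (Q) -/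
def QH (G : Gr V E) (A : Finset E) (r : ℕ) (v u w : V) (e f : E) : Prop :=
  Even r ∧ Ec G A (r + 2) ∧ cn G A {v} ≤ r + 3 ∧ e ∈ A ∧ f ∈ A ∧ e ≠ f ∧ Jn G e v u ∧
    Jn G f v w ∧ u ≠ v ∧ w ≠ v

/-- conclusion of (Q) -/
def QC (G : Gr V E) (A : Finset E) (r : ℕ) (v u w : V) (e f : E) : Prop :=
  ∃ F : Finset E, F ⊆ A ∧ (∀ g ∈ F, G.s g ≠ v ∧ G.t g ≠ v) ∧ Co G F u w ∧
    Ec G (A \ (F ∪ {e, f})) r

/-! ### The statement (E) -/

/-- hypotheses of (E) -/
def EH (G : Gr V E) (A : Finset E) (r : ℕ) (K : Finset V) (v z : V) (e : E) : Prop :=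
  Even r ∧ v ∈ K ∧ z ≠ v ∧ e ∈ A ∧ Jn G e v z ∧ cn G A {v} ≤ r + 1 ∧ Ec G A r ∧
    ∀ X : Finset V, X.Nonempty → Disjoint X K → r + 2 ≤ cn G A X

/-- conclusion of (E): an ear from `v` through `e` to a vertex `y` of `K` -/
def EC (G : Gr V E) (A : Finset E) (r : ℕ) (K : Finset V) (v z : V) (e : E) : Prop :=
  ∃ y ∈ K, y ≠ v ∧ ∃ D : Finset E, D ⊆ A.erase e ∧ Co G D z y ∧
    (∀ g ∈ D, (G.s g ∈ K → G.s g = y) ∧ (G.t g ∈ K → G.t g = y)) ∧
    ∀ X : Finset V, X.Nonempty → X ≠ univ → r ≤ cn G (A \ insert e D) X + sep v y X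

/-! ### The statement (GS) -/

/-- hypotheses of (GS) -/
def GH (G : Gr V E) (A : Finset E) (r : ℕ) (y y' a b : V) (e t : E) : Prop :=
  Even r ∧ Ec G A (r + 2) ∧ e ∈ A ∧ t ∈ A ∧ e ≠ t ∧ y ≠ y' ∧ a ≠ b ∧ Jn G e y y' ∧ Jn G t a b

/-- conclusion of (GS): a closed trail through `e` and `t` -/
def GC (G : Gr V E) (A : Finset E) (r : ℕ) (y y' a b : V) (e t : E) : Prop :=
  ∃ P Q : Finset E, P ⊆ A ∧ Q ⊆ A ∧ Disjoint P Q ∧ e ∉ P ∧ e ∉ Q ∧ t ∉ P ∧ t ∉ Q ∧
    ((Co G P y a ∧ Co G Q y' b) ∨ (Co G P y b ∧ Co G Q y' a)) ∧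
    Ec G (A \ (P ∪ Q ∪ {e, t})) r

/-! ### Demands -/

/-- number of ends of the demands of `J` at `v` -/
def tk {I : Type} (a b : I → V) (J : Finset I) (v : V) : ℕ :=
  (J.filter (fun i => a i = v)).card + (J.filter (fun i => b i = v)).card

/-- hypotheses: at most `c + 1` demands, all cuts at least `c`, graph plus demands Eulerian -/
def DH {I : Type} (G : Gr V E) (A : Finset E) (a b : I → V) (J : Finset I) (c : ℕ) : Prop :=
  Even c ∧ Ec G A c ∧ J.card ≤ c + 1 ∧ ∀ v : V, Even (cn G A {v} + tk a b J v)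

/-- conclusion: edge-disjoint connecting sets -/
def DC {I : Type} (G : Gr V E) (A : Finset E) (a b : I → V) (J : Finset I) : Prop :=
  ∃ F : I → Finset E, (∀ i ∈ J, F i ⊆ A) ∧
    (∀ i ∈ J, ∀ j ∈ J, i ≠ j → Disjoint (F i) (F j)) ∧ ∀ i ∈ J, Co G (F i) (a i) (b i)

end

end Pool.Agent.H71.WE
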