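import Pool.Agent.H71.WE.Targets

/-!
# Row Q
-/

set_option autoImplicit false

namespace Pool.Agent.H71.WE

open Finset

theorem pf_Q (h1 : T_QTV) (h2 : T_QSP) : T_Q := by
  intro V E iV iD iE r
  obtain ⟨n, hn⟩ : ∃ n, Fintype.card V = n := ⟨_, rfl⟩
  induction n using Nat.strong_induction_on generalizing V with
  | _ n ih =>
    intro G A
    obtain ⟨m, hm⟩ : ∃ m, A.card = m := ⟨_, rfl⟩
    induction m using Nat.strong_induction_on generalizing A with
    | _ m ihm =>
      intro v u w e f hQ
      have hQ' := hQ
      obtain ⟨hr, hec, hdv, he, hf, hef, hje, hjf, huv, hwv⟩ := hQ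
      by_cases huw : u = w
      · refine ⟨∅, empty_subset _, by simp, ?_, ?_⟩
        · rw [huw]; exact co_refl G ∅ w
        · intro X hX1 hX2
          have h3 := hec X hX1 hX2
          have h4 : ({e, f} : Finset E) ⊆ A := by
            intro x hx
            rw [mem_insert, mem_singleton] at hx
            rcases hx with rfl | rfl
            · exact he
            · exact hf
          have h5 := cn_sdiff G h4 X
          have h6 : cn G {e, f} X ≤ 2 := by
            unfold cn
            exact (card_filter_le _ _).trans card_le_two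
          rw [empty_union]
          omega
      · by_cases hdel : ∃ g ∈ A, g ≠ e ∧ g ≠ f ∧ Ec G (A.erase g) (r + 2)
        · obtain ⟨g, hg, hge, hgf, hg2⟩ := hdel
          have hlt : (A.erase g).card < m := by
            rw [← hm]; exact card_erase_lt_of_mem hg
          obtain ⟨F, hF1, hF2, hF3, hF4⟩ := ihm _ hlt (A.erase g) rfl v u w e f
            ⟨hr, hg2, (cn_mono G (erase_subset g A) {v}).trans hdv,
              mem_erase.2 ⟨hge.symm, he⟩, mem_erase.2 ⟨hgf.symm, hf⟩, hef, hje, hjf, huv, hwv⟩
          refine ⟨F, hF1.trans (erase_subset g A), hF2, hF3, ?_⟩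
          exact ec_mono (sdiff_subset_sdiff (erase_subset g A) (Subset.refl _)) hF4
        · obtain ⟨z, hz1, hz2⟩ := h1 V E G A r v u w e f hQ' huw (by
            intro g hg hge hgf hh
            exact hdel ⟨g, hg, hge, hgf, hh⟩)
          refine h2 V E G A r v u w z e f hQ' huw hz1 hz2 ?_
          have hlt : Fintype.card {x : V // x ≠ z} < n := by
            rw [← hn]
            exact Fintype.card_subtype_lt (x := z) (by simp)
          exact ih _ hlt {x : V // x ≠ z} rfl

end Pool.Agent.H71.WE
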