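import Pool.Agent.H71.WE.Basic

/-!
# Edge-disjoint paths: the statements of the rows
-/

set_option autoImplicit false

namespace Pool.Agent.H71.WE

open Finset

/-! ### Cut functions -/

/-- cut functions are symmetric, submodular, posimodular, with parity -/
def T_CUT : Prop := ∀ (V E : Type) [Fintype V] [DecidableEq V] [DecidableEq E]
  (G : Gr V E) (A : Finset E), CF (cn G A)

/-- further identities for cuts -/
def T_CUX : Prop := ∀ (V E : Type) [Fintype V] [DecidableEq V] [DecidableEq E]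
  (G : Gr V E) (A : Finset E),
  (∀ X Y : Finset V, ∀ p ∈ A, ∀ x y : V, Jn G p x y → x ∈ X → x ∈ Y → y ∉ X → y ∉ Y →
    cn G A (X \ Y) + cn G A (Y \ X) + 2 ≤ cn G A X + cn G A Y) ∧
  (∀ X Y : Finset V, Disjoint X Y → cn G A X + cn G A Y = cn G A (X ∪ Y) +
    2 * (A.filter (fun e => (G.s e ∈ X ∧ G.t e ∈ Y) ∨ (G.s e ∈ Y ∧ G.t e ∈ X))).card) ∧
  (∀ X : Finset V, Even (cn G A X + ∑ v ∈ X, cn G A {v}))

/-- `sep a b` is a cut function, sums of cut functions are cut functions -/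
def T_SEP : Prop := ∀ (V : Type) [Fintype V] [DecidableEq V],
  (∀ a b : V, CF (sep a b)) ∧ (∀ g h : Finset V → ℕ, CF g → CF h → CF (fun X => g X + h X))

/-- gluing -/
def T_GLU : Prop := ∀ (V : Type) [Fintype V] [DecidableEq V] (g : Finset V → ℕ), CF g →
  ∀ (r m : ℕ) (S : Finset V), Even r → Even m → r ≤ m → S.Nonempty → S ≠ univ →
  (∀ X : Finset V, X.Nonempty → X ⊆ S → X ≠ S → m ≤ g X) →
  (∀ X : Finset V, S ⊆ X → X ≠ univ → r ≤ g X) → g S ≤ m + 1 →
  ∀ X : Finset V, X.Nonempty → X ≠ univ → r ≤ g X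

/-! ### Splitting off -/

/-- the two requirements -/
def T_RQ : Prop := ∀ (V : Type) [Fintype V] [DecidableEq V] (z : V),
  (∀ c : ℕ, Even c → Rq z (fun _ => c)) ∧
  (∀ (K : Finset V) (r : ℕ), z ∉ K → Even r → Rq z (rK K r))

/-- an admissible partner at a vertex of even degree -/
def T_ADM : Prop := ∀ (V E : Type) [Fintype V] [DecidableEq V] [DecidableEq E]
  (G : Gr V E) (A : Finset E) (z : V) (ρ : Finset V → ℕ), Rq z ρ → Even (cn G A {z}) →
  (∀ X : Finset V, z ∉ X → X.Nonempty → X ≠ univ.erase z → ρ X ≤ cn G A X) →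
  ∀ p ∈ A, ∀ y : V, Jn G p z y → y ≠ z →
  ∃ q ∈ A, q ≠ p ∧ ∃ y' : V, y' ≠ z ∧ Jn G q z y' ∧
    ∀ X : Finset V, z ∉ X → X ≠ univ.erase z → y ∈ X → y' ∈ X → ρ X + 2 ≤ cn G A X

/-- an admissible partner at a vertex of large degree -/
def T_ADX : Prop := ∀ (V E : Type) [Fintype V] [DecidableEq V] [DecidableEq E]
  (G : Gr V E) (A : Finset E) (c : ℕ) (x : V), Even c → Ec G A c → c + 2 ≤ cn G A {x} →
  ∀ p ∈ A, ∀ y : V, Jn G p x y → y ≠ x →
  ∃ q ∈ A, q ≠ p ∧ ∃ y' : V, y' ≠ x ∧ Jn G q x y' ∧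
    ∀ X : Finset V, x ∉ X → y ∈ X → y' ∈ X → c + 2 ≤ cn G A X

/-- effect of splitting one pair -/
def T_SP1 : Prop := ∀ (V E : Type) [Fintype V] [DecidableEq V] [DecidableEq E]
  (G : Gr V E) (A : Finset E) (z y y' : V) (p q : E), p ∈ A → q ∈ A → q ≠ p →
  Jn G p z y → Jn G q z y' → y ≠ z → y' ≠ z →
  (∀ X : Finset V, cn (spl G p y y') (A.erase q) X +
    (if (z ∈ X ∧ y ∉ X ∧ y' ∉ X) ∨ (z ∉ X ∧ y ∈ X ∧ y' ∈ X) then 2 else 0) = cn G A X) ∧
  Lf G A (spl G p y y') (A.erase q) id (fun e => if e = p then {p, q} else {e})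

/-- complete splitting, on the same vertex set -/
def T_CS1 : Prop := ∀ (V E : Type) [Fintype V] [DecidableEq V] [DecidableEq E]
  (G : Gr V E) (A : Finset E) (z : V) (ρ : Finset V → ℕ), Rq z ρ → Even (cn G A {z}) →
  (∀ X : Finset V, z ∉ X → X.Nonempty → X ≠ univ.erase z → ρ X ≤ cn G A X) →
  ∀ p ∈ A, G.s p ≠ G.t p →
  ∃ (G' : Gr V E) (A' : Finset E) (φ : E → Finset E), A' ⊆ A ∧ p ∈ A' ∧
    Lf G A G' A' id φ ∧ (∀ e ∈ A', G'.s e ≠ z ∧ G'.t e ≠ z) ∧
    (∀ X : Finset V, z ∉ X → X.Nonempty → X ≠ univ.erase z → ρ X ≤ cn G' A' X) ∧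
    (∀ e ∈ A, G.s e ≠ z → G.t e ≠ z →
      e ∈ A' ∧ G'.s e = G.s e ∧ G'.t e = G.t e ∧ φ e = {e}) ∧
    (∀ e ∈ A', G.s e = z ∨ G.t e = z →
      ∃ q ∈ A, q ≠ e ∧ φ e = {e, q} ∧ Jn G e z (G'.s e) ∧ Jn G q z (G'.t e)) ∧
    (∀ x : V, x ≠ z → Even (cn G' A' {x} + cn G A {x}))

/-- complete splitting of `z` -/
def T_CSP : Prop := ∀ (V E : Type) [Fintype V] [DecidableEq V] [DecidableEq E]
  (G : Gr V E) (A : Finset E) (z : V) (ρ : Finset V → ℕ), Rq z ρ → Even (cn G A {z}) →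
  (∀ X : Finset V, z ∉ X → X.Nonempty → X ≠ univ.erase z → ρ X ≤ cn G A X) →
  ∀ p ∈ A, G.s p ≠ G.t p →
  ∃ (G' : Gr {x : V // x ≠ z} E) (A' : Finset E) (φ : E → Finset E), A' ⊆ A ∧ p ∈ A' ∧
    Lf G A G' A' Subtype.val φ ∧
    (∀ X : Finset {x : V // x ≠ z}, X.Nonempty → X ≠ univ →
      ρ (X.image Subtype.val) ≤ cn G' A' X) ∧
    (∀ e ∈ A, G.s e ≠ z → G.t e ≠ z →
      e ∈ A' ∧ (G'.s e).1 = G.s e ∧ (G'.t e).1 = G.t e ∧ φ e = {e}) ∧
    (∀ e ∈ A', G.s e = z ∨ G.t e = z →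
      ∃ q ∈ A, q ≠ e ∧ φ e = {e, q} ∧ Jn G e z (G'.s e).1 ∧ Jn G q z (G'.t e).1) ∧
    (∀ x : {x : V // x ≠ z}, Even (cn G' A' {x} + cn G A {x.1})) ∧
    (∀ x : {x : V // x ≠ z}, cn G A {x.1} ≤ ρ {x.1} + 1 → univ.erase z ≠ {x.1} →
      ∀ e ∈ A', G.s e = z ∨ G.t e = z → ¬ (G'.s e = x ∧ G'.t e = x))

/-- lifting -/
def T_LFT : Prop := ∀ (V E V' E' : Type) [Fintype V] [DecidableEq V] [DecidableEq E]
  [Fintype V'] [DecidableEq V'] [DecidableEq E'] (G : Gr V E) (A : Finset E)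
  (G' : Gr V' E') (A' : Finset E') (f : V' → V) (φ : E' → Finset E), Lf G A G' A' f φ →
  (∀ F' : Finset E', F' ⊆ A' → ∀ a b : V', Co G' F' a b → Co G (F'.biUnion φ) (f a) (f b)) ∧
  (∀ F' : Finset E', F' ⊆ A' → ∀ X : Finset V,
    cn G' (A' \ F') (pre f X) ≤ cn G (A \ F'.biUnion φ) X) ∧
  (∀ F1 F2 : Finset E', F1 ⊆ A' → F2 ⊆ A' → Disjoint F1 F2 →
    Disjoint (F1.biUnion φ) (F2.biUnion φ))

/-- residual cuts after lifting from `V - z` -/
def T_RES : Prop := ∀ (V E : Type) [Fintype V] [DecidableEq V] [DecidableEq E]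
  (G : Gr V E) (A : Finset E) (z : V) (G' : Gr {x : V // x ≠ z} E) (A' : Finset E)
  (φ : E → Finset E), Lf G A G' A' Subtype.val φ →
  ∀ (F' U : Finset E) (r : ℕ) (h : Finset V → ℕ), (∀ X, h Xᶜ = h X) → F' ⊆ A' →
  U ⊆ F'.biUnion φ →
  (∀ X : Finset V, (pre (Subtype.val : {x : V // x ≠ z} → V) X).Nonempty →
    pre (Subtype.val : {x : V // x ≠ z} → V) X ≠ univ →
    r ≤ cn G' (A' \ F') (pre Subtype.val X) + h X) →
  r ≤ cn G (A \ U) {z} + h {z} →
  ∀ X : Finset V, X.Nonempty → X ≠ univ → r ≤ cn G (A \ U) X + h X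

/-! ### Contraction and paths -/

/-- contraction -/
def T_CTR : Prop := ∀ (V E : Type) [Fintype V] [DecidableEq V] [DecidableEq E]
  (G : Gr V E),
  (∀ (W : Type) [Fintype W] [DecidableEq W] (f : V → W) (A : Finset E) (X : Finset W),
    cn (mp G f) A X = cn G A (pre f X)) ∧
  (∀ (W : Type) [Fintype W] [DecidableEq W] (f : V → W) (F : Finset E) (a b : V),
    Co G F a b → Co (mp G f) F (f a) (f b)) ∧
  ∀ S : Finset V, S.Nonempty →
    (∀ X : Finset V, S ⊆ X ∨ Disjoint S X → ∃ Z, pre (ctr S) Z = X) ∧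
    (∀ Z, S ⊆ pre (ctr S) Z ∨ Disjoint S (pre (ctr S) Z)) ∧
    (∀ Z, (pre (ctr S) Z).Nonempty ↔ Z.Nonempty) ∧
    (∀ Z, pre (ctr S) Z = univ ↔ Z = univ) ∧
    (2 ≤ S.card → Fintype.card (Option {x : V // x ∉ S}) < Fintype.card V)

/-- transit through a contracted set -/
def T_TRN : Prop := ∀ (V E : Type) [Fintype V] [DecidableEq V] [DecidableEq E]
  (G : Gr V E) (S T : Finset V) (D F : Finset E) (a b : V),
  (∀ g ∈ D, Cr G S g → (G.s g ∈ S → G.s g ∈ T) ∧ (G.t g ∈ S → G.t g ∈ T)) →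
  (a ∈ S → a ∈ T) → (b ∈ S → b ∈ T) → (∀ x ∈ T, ∀ y ∈ T, Co G F x y) →
  Co (mp G (ctr S)) D (ctr S a) (ctr S b) → Co G (D ∪ F) a b

/-- structure of minimal connecting sets (paths) -/
def T_PTH : Prop := ∀ (V E : Type) [Fintype V] [DecidableEq V] [DecidableEq E]
  (G : Gr V E) (F : Finset E) (a b : V), Pt G F a b →
  (∀ g ∈ F, G.s g ≠ G.t g) ∧ (∀ x, cn G F {x} ≤ 2) ∧ cn G F {a} ≤ 1 ∧ cn G F {b} ≤ 1 ∧
  (∀ x, Even (cn G F {x} + sep a b {x})) ∧
  (∀ x, (∃ g ∈ F, G.s g = x ∨ G.t g = x) → ∃ F1, F1 ⊆ F ∧ Co G F1 a x ∧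
    Co G (F \ F1) x b) ∧
  (∀ g ∈ F, ∀ x, Jn G g a x → Co G (F.erase g) x b)

/-! ### (Q) -/

/-- (Q) for the graphs on the vertex type `V` -/
def IQ (r : ℕ) (V E : Type) [Fintype V] [DecidableEq V] [DecidableEq E] : Prop :=
  ∀ (G : Gr V E) (A : Finset E) (v u w : V) (e f : E),
    QH G A r v u w e f → QC G A r v u w e f

/-- a tight vertex -/
def T_QTV : Prop := ∀ (V E : Type) [Fintype V] [DecidableEq V] [DecidableEq E]
  (G : Gr V E) (A : Finset E) (r : ℕ) (v u w : V) (e f : E), QH G A r v u w e f → u ≠ w →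
  (∀ g ∈ A, g ≠ e → g ≠ f → ¬ Ec G (A.erase g) (r + 2)) →
  ∃ z, z ≠ v ∧ cn G A {z} = r + 2

/-- the splitting step of (Q) -/
def T_QSP : Prop := ∀ (V E : Type) [Fintype V] [DecidableEq V] [DecidableEq E]
  (G : Gr V E) (A : Finset E) (r : ℕ) (v u w z : V) (e f : E), QH G A r v u w e f → u ≠ w →
  z ≠ v → cn G A {z} = r + 2 → IQ r {x : V // x ≠ z} E → QC G A r v u w e f

/-- (Q) -/
def T_Q : Prop := ∀ (V E : Type) [Fintype V] [DecidableEq V] [DecidableEq E] (r : ℕ),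
  IQ r V E

/-- (Q) inside a set `S` -/
def T_QCT : Prop := ∀ (V E : Type) [Fintype V] [DecidableEq V] [DecidableEq E]
  (G : Gr V E) (A : Finset E) (r : ℕ) (S : Finset V) (w1 w2 : V) (g1 g2 : E), Even r →
  S ≠ univ → (∀ X : Finset V, X.Nonempty → X ⊆ S → r + 2 ≤ cn G A X) → cn G A S ≤ r + 3 →
  g1 ∈ A → g2 ∈ A → g1 ≠ g2 → Cr G S g1 → Cr G S g2 → w1 ∈ S → w2 ∈ S →
  (G.s g1 = w1 ∨ G.t g1 = w1) → (G.s g2 = w2 ∨ G.t g2 = w2) →
  ∃ F : Finset E, F ⊆ A ∧ (∀ g ∈ F, G.s g ∈ S ∧ G.t g ∈ S) ∧ Co G F w1 w2 ∧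
    ∀ X : Finset V, X.Nonempty → X ⊆ S → r ≤ cn G (A \ (F ∪ {g1, g2})) X

/-! ### (E) -/

/-- (E) for the graphs on the vertex type `V` -/
def IE (r : ℕ) (V E : Type) [Fintype V] [DecidableEq V] [DecidableEq E] : Prop :=
  ∀ (G : Gr V E) (A : Finset E) (K : Finset V) (v z : V) (e : E),
    EH G A r K v z e → EC G A r K v z e

/-- (E), trivial case -/
def T_E0 : Prop := ∀ (V E : Type) [Fintype V] [DecidableEq V] [DecidableEq E]
  (G : Gr V E) (A : Finset E) (r : ℕ) (K : Finset V) (v z : V) (e : E),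
  EH G A r K v z e → z ∈ K → EC G A r K v z e

/-- (E), contraction of a set without vertices of `K`, containing `z` -/
def T_E1A : Prop := ∀ (V E : Type) [Fintype V] [DecidableEq V] [DecidableEq E]
  (G : Gr V E) (A : Finset E) (r : ℕ) (K : Finset V) (v z : V) (e : E) (S : Finset V),
  EH G A r K v z e → z ∉ K → Disjoint S K → cn G A S ≤ r + 3 → z ∈ S →
  IE r (Option {x : V // x ∉ S}) E → EC G A r K v z e

/-- (E), contraction of a set without vertices of `K`, not containing `z` -/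
def T_E1B : Prop := ∀ (V E : Type) [Fintype V] [DecidableEq V] [DecidableEq E]
  (G : Gr V E) (A : Finset E) (r : ℕ) (K : Finset V) (v z : V) (e : E) (S : Finset V),
  EH G A r K v z e → z ∉ K → Disjoint S K → S.Nonempty → cn G A S ≤ r + 3 → z ∉ S →
  IE r (Option {x : V // x ∉ S}) E → EC G A r K v z e

/-- (E), splitting of `z` -/
def T_E2A : Prop := ∀ (V E : Type) [Fintype V] [DecidableEq V] [DecidableEq E]
  (G : Gr V E) (A : Finset E) (r : ℕ) (K : Finset V) (v z : V) (e : E),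
  EH G A r K v z e → z ∉ K → Even (cn G A {z}) →
  IE r {x : V // x ≠ z} E → EC G A r K v z e

/-- (E), splitting of a vertex `x` different from `z` -/
def T_E2B : Prop := ∀ (V E : Type) [Fintype V] [DecidableEq V] [DecidableEq E]
  (G : Gr V E) (A : Finset E) (r : ℕ) (K : Finset V) (v z : V) (e : E) (z' : V),
  EH G A r K v z e → z' ∉ K → z' ≠ z → Even (cn G A {z'}) →
  IE r {x : V // x ≠ z'} E → EC G A r K v z e

/-- (E), a small cut `W` with `z ∈ W` -/
def T_E3A : Prop := ∀ (V E : Type) [Fintype V] [DecidableEq V] [DecidableEq E]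
  (G : Gr V E) (A : Finset E) (r : ℕ) (K : Finset V) (v z : V) (e : E) (W : Finset V),
  EH G A r K v z e → v ∉ W → z ∈ W → cn G A W ≤ r + 1 →
  IE r (Option {x : V // x ∉ Wᶜ}) E → EC G A r K v z e

/-- (E), a small cut `W` with `z ∉ W` -/
def T_E3B : Prop := ∀ (V E : Type) [Fintype V] [DecidableEq V] [DecidableEq E]
  (G : Gr V E) (A : Finset E) (r : ℕ) (K : Finset V) (v z : V) (e : E) (W : Finset V),
  EH G A r K v z e → v ∉ W → z ∉ W → W.Nonempty → cn G A W ≤ r + 1 →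
  IE r (Option {x : V // x ∉ W}) E → IE r (Option {x : V // x ∉ Wᶜ}) E →
  EC G A r K v z e

/-- (E), deletion of an edge outside `K` -/
def T_E4 : Prop := ∀ (V E : Type) [Fintype V] [DecidableEq V] [DecidableEq E]
  (G : Gr V E) (A : Finset E) (r : ℕ) (K : Finset V) (v z : V) (e g : E),
  EH G A r K v z e → g ∈ A → G.s g ∉ K → G.t g ∉ K → G.s g ≠ G.t g →
  (∀ S : Finset V, Disjoint S K → 2 ≤ S.card → r + 4 ≤ cn G A S) →
  (∀ x : V, x ∉ K → ¬ Even (cn G A {x})) →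
  (∀ W : Finset V, v ∉ W → 2 ≤ W.card → 2 ≤ Wᶜ.card → r + 2 ≤ cn G A W) →
  (EH G (A.erase g) r K v z e → EC G (A.erase g) r K v z e) → EC G A r K v z e

/-- (E), the last case -/
def T_E5 : Prop := ∀ (V E : Type) [Fintype V] [DecidableEq V] [DecidableEq E]
  (G : Gr V E) (A : Finset E) (r : ℕ) (K : Finset V) (v z : V) (e : E),
  EH G A r K v z e → z ∉ K →
  (∀ g ∈ A, G.s g ∉ K → G.t g ∉ K → G.s g = G.t g) →
  (∀ x : V, x ∉ K → ¬ Even (cn G A {x})) →
  (∀ W : Finset V, v ∉ W → 2 ≤ W.card → 2 ≤ Wᶜ.card → r + 2 ≤ cn G A W) →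
  EC G A r K v z e

/-- (E) -/
def T_E : Prop := ∀ (V E : Type) [Fintype V] [DecidableEq V] [DecidableEq E] (r : ℕ),
  IE r V E

/-! ### (GS) -/

/-- (GS) for the graphs on the vertex type `V` -/
def IG (r : ℕ) (V E : Type) [Fintype V] [DecidableEq V] [DecidableEq E] : Prop :=
  ∀ (G : Gr V E) (A : Finset E) (y y' a b : V) (e t : E),
    GH G A r y y' a b e t → GC G A r y y' a b e t

/-- (GS) for the graphs on the vertex type `V` with fewer than `n` edges -/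
def IGn (r : ℕ) (V E : Type) [Fintype V] [DecidableEq V] [DecidableEq E] (n : ℕ) : Prop :=
  ∀ (G : Gr V E) (A : Finset E), A.card < n → ∀ (y y' a b : V) (e t : E),
    GH G A r y y' a b e t → GC G A r y y' a b e t

/-- a closed trail through one edge, from (GS) -/
def T_G1 : Prop := ∀ (V E : Type) [Fintype V] [DecidableEq V] [DecidableEq E]
  (G : Gr V E) (A : Finset E) (r : ℕ) (u x : V) (e : E), Even r → Ec G A (r + 2) → e ∈ A →
  Jn G e u x → u ≠ x → (∀ (a b : V) (t : E), GH G A r u x a b e t → GC G A r u x a b e t) →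
  ∃ Q : Finset E, Q ⊆ A.erase e ∧ Co G Q u x ∧ Ec G (A \ insert e Q) r

/-- the case of an end of large degree, partner `t` -/
def T_G0T : Prop := ∀ (V E : Type) [Fintype V] [DecidableEq V] [DecidableEq E]
  (G : Gr V E) (A : Finset E) (r : ℕ) (u v x : V) (e t : E), GH G A r u v v x e t →
  Ec (spl G e u x) (A.erase t) (r + 2) → IGn r V E A.card → GC G A r u v v x e t

/-- the case of an end of large degree, partner different from `t` -/
def T_G0Q : Prop := ∀ (V E : Type) [Fintype V] [DecidableEq V] [DecidableEq E]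
  (G : Gr V E) (A : Finset E) (r : ℕ) (u v a b x : V) (e t q : E), GH G A r u v a b e t →
  q ∈ A → q ≠ e → q ≠ t → Jn G q v x → x ≠ v →
  Ec (spl G e u x) (A.erase q) (r + 2) → IGn r V E A.card → GC G A r u v a b e t

/-- the case of an end of large degree -/
def T_G0 : Prop := ∀ (V E : Type) [Fintype V] [DecidableEq V] [DecidableEq E]
  (G : Gr V E) (A : Finset E) (r : ℕ) (u v a b : V) (e t : E), GH G A r u v a b e t →
  r + 4 ≤ cn G A {v} → IGn r V E A.card → GC G A r u v a b e t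

/-- the case of a common end -/
def T_GQ : Prop := ∀ (V E : Type) [Fintype V] [DecidableEq V] [DecidableEq E]
  (G : Gr V E) (A : Finset E) (r : ℕ) (u v a b : V) (e t : E), GH G A r u v a b e t →
  (a = v ∨ b = v) → cn G A {v} ≤ r + 3 → GC G A r u v a b e t

/-- a good closed trail through `v` and `t` -/
def GT {V E : Type} [Fintype V] [DecidableEq V] [DecidableEq E] (G : Gr V E)
    (A : Finset E) (r : ℕ) (v a b : V) (t : E) : Prop :=
  ∃ P1 P2 : Finset E, P1 ⊆ A ∧ P2 ⊆ A ∧ Disjoint P1 P2 ∧ t ∉ P1 ∧ t ∉ P2 ∧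
    Pt G P1 v a ∧ Pt G P2 v b ∧ Ec G (A \ (P1 ∪ P2 ∪ {t})) r

/-- rerouting: from a good closed trail through `v`, `t` to one through `e`, `t` -/
def T_GRE : Prop := ∀ (V E : Type) [Fintype V] [DecidableEq V] [DecidableEq E]
  (G : Gr V E) (A : Finset E) (r : ℕ) (u v a b : V) (e t : E), GH G A r u v a b e t →
  v ≠ a → v ≠ b → cn G A {v} ≤ r + 3 → GT G A r v a b t → GC G A r u v a b e t

/-- a tight end -/
def T_GA : Prop := ∀ (V E : Type) [Fintype V] [DecidableEq V] [DecidableEq E]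
  (G : Gr V E) (A : Finset E) (r : ℕ) (u v a b : V) (e t : E), GH G A r u v a b e t →
  v ≠ a → v ≠ b → cn G A {v} = r + 2 → cn G A {u} ≤ r + 3 →
  IG r {x : V // x ≠ v} E → GT G A r v a b t

/-- the edge `e` is deletable -/
def T_GB1 : Prop := ∀ (V E : Type) [Fintype V] [DecidableEq V] [DecidableEq E]
  (G : Gr V E) (A : Finset E) (r : ℕ) (u v a b : V) (e t : E), GH G A r u v a b e t →
  v ≠ a → v ≠ b → Ec G (A.erase e) (r + 2) → IGn r V E A.card → GT G A r v a b t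

/-- `e` is in a tight cut, `t` on one side -/
def T_GB2 : Prop := ∀ (V E : Type) [Fintype V] [DecidableEq V] [DecidableEq E]
  (G : Gr V E) (A : Finset E) (r : ℕ) (u v a b : V) (e t : E) (S : Finset V),
  GH G A r u v a b e t → v ∈ S → u ∉ S → a ∉ S → b ∉ S → cn G A S = r + 2 →
  IG r (Option {x : V // x ∉ S}) E → GC G A r u v a b e t

/-- `e` and `t` in one tight cut -/
def T_GB3 : Prop := ∀ (V E : Type) [Fintype V] [DecidableEq V] [DecidableEq E]
  (G : Gr V E) (A : Finset E) (r : ℕ) (u v a b : V) (e t : E) (S : Finset V),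
  GH G A r u v a b e t → v ∈ S → u ∉ S → a ∈ S → b ∉ S → cn G A S = r + 2 →
  GC G A r u v a b e t

/-- (GS) -/
def T_GS : Prop := ∀ (V E : Type) [Fintype V] [DecidableEq V] [DecidableEq E] (r : ℕ),
  IG r V E

/-- one vertex to two targets -/
def T_OT : Prop := ∀ (V E : Type) [Fintype V] [DecidableEq V] [DecidableEq E]
  (G : Gr V E) (A : Finset E) (r : ℕ) (x a b : V), Even r → Ec G A (r + 2) → a ≠ x → b ≠ x →
  ∃ P1 P2 : Finset E, P1 ⊆ A ∧ P2 ⊆ A ∧ Disjoint P1 P2 ∧ Co G P1 x a ∧ Co G P2 x b ∧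
    Ec G (A \ (P1 ∪ P2)) r

/-! ### Demands -/

/-- no connectivity: at most one demand -/
def T_D0 : Prop := ∀ (V E I : Type) [Fintype V] [DecidableEq V] [DecidableEq E]
  [DecidableEq I] (G : Gr V E) (A : Finset E) (a b : I → V) (J : Finset I),
  DH G A a b J 0 → DC G A a b J

/-- a trivial demand -/
def T_DT : Prop := ∀ (V E I : Type) [Fintype V] [DecidableEq V] [DecidableEq E]
  [DecidableEq I] (G : Gr V E) (A : Finset E) (a b : I → V) (J : Finset I) (c : ℕ) (i : I),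
  DH G A a b J c → i ∈ J → a i = b i →
  (DH G A a b (J.erase i) c → DC G A a b (J.erase i)) → DC G A a b J

/-- two demands at one vertex -/
def T_DA : Prop := ∀ (V E I : Type) [Fintype V] [DecidableEq V] [DecidableEq E]
  [DecidableEq I] (G : Gr V E) (A : Finset E) (a b : I → V) (J : Finset I) (r : ℕ) (x : V)
  (i j : I), DH G A a b J (r + 2) → (∀ i ∈ J, a i ≠ b i) → i ∈ J → j ∈ J → i ≠ j →
  (a i = x ∨ b i = x) → (a j = x ∨ b j = x) →
  (∀ A' : Finset E, DH G A' a b ((J.erase i).erase j) r →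
    DC G A' a b ((J.erase i).erase j)) → DC G A a b J

/-- a vertex without demands -/
def T_DS : Prop := ∀ (V E I : Type) [Fintype V] [DecidableEq V] [DecidableEq E]
  [DecidableEq I] (G : Gr V E) (A : Finset E) (a b : I → V) (J : Finset I) (c : ℕ) (z : V),
  DH G A a b J c → 1 ≤ c → J.Nonempty → tk a b J z = 0 →
  (∀ (G' : Gr {x : V // x ≠ z} E) (A' : Finset E) (a' b' : I → {x : V // x ≠ z}),
    DH G' A' a' b' J c → DC G' A' a' b' J) → DC G A a b J

/-- one demand at every vertex -/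
def T_DB : Prop := ∀ (V E I : Type) [Fintype V] [DecidableEq V] [DecidableEq E]
  [DecidableEq I] (G : Gr V E) (A : Finset E) (a b : I → V) (J : Finset I) (c : ℕ),
  DH G A a b J c → 1 ≤ c → J.Nonempty → (∀ x : V, tk a b J x = 1) →
  (∀ (z : V) (G' : Gr {x : V // x ≠ z} E) (A' : Finset E) (a' b' : I → {x : V // x ≠ z}),
    DH G' A' a' b' J c → DC G' A' a' b' J) → DC G A a b J

/-- the Eulerian theorem -/
def T_D : Prop := ∀ (c : ℕ) (V E I : Type) [Fintype V] [DecidableEq V] [DecidableEq E]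
  [DecidableEq I] (G : Gr V E) (A : Finset E) (a b : I → V) (J : Finset I),
  DH G A a b J c → DC G A a b J

/-- **the theorem**: `τ` is the number of vertices of odd total degree -/
def T_TAU : Prop := ∀ (V E I : Type) [Fintype V] [DecidableEq V] [DecidableEq E]
  [DecidableEq I] (G : Gr V E) (A : Finset E) (a b : I → V) (J : Finset I) (k : ℕ),
  Ec G A (2 * k) →
  2 * J.card + (univ.filter (fun v : V => Odd (cn G A {v} + tk a b J v))).card ≤ 4 * k + 2 →
  DC G A a b J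

end Pool.Agent.H71.WE
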