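import Pool.Agent.H71.WE.Targets
import Pool.Agent.H75.WE.TAU

/-!
# The terminal form: only cuts which separate two terminals have to be large
-/

set_option autoImplicit false
set_option linter.unusedSectionVars false

namespace Pool.Agent.H71.WE

open Finset

section
variable {V E : Type} [Fintype V] [DecidableEq V] [DecidableEq E]

/-- `X` separates two vertices with `τ ≠ 0` -/
def SU (τ : V → ℕ) (X : Finset V) : Prop := (∃ v ∈ X, τ v ≠ 0) ∧ ∃ v, v ∉ X ∧ τ v ≠ 0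

theorem sum_ne_of_odd {τ : V → ℕ} {X : Finset V} (h : Odd (∑ v ∈ X, τ v)) :
    ∃ v ∈ X, τ v ≠ 0 := by
  by_contra hcon
  push Not at hcon
  rw [sum_eq_zero hcon] at h
  exact (Nat.not_odd_zero) h

/-- parity of cuts -/
theorem par_all (h2 : T_CUX) {G : Gr V E} {A : Finset E} {τ : V → ℕ}
    (hpar : ∀ v, Even (cn G A {v} + τ v)) (X : Finset V) :
    Even (cn G A X + ∑ v ∈ X, τ v) := by
  have h3 := (h2 V E G A).2.2 X
  have h4 : Even (∑ v ∈ X, (cn G A {v} + τ v)) := even_sum _ (fun v _ => hpar v)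
  rw [sum_add_distrib] at h4
  rw [Nat.even_add] at h3 h4 ⊢
  tauto

theorem cn_univ (G : Gr V E) (A : Finset E) : cn G A univ = 0 := by
  unfold cn
  rw [card_eq_zero, filter_eq_empty_iff]
  intro e _ h
  unfold Cr at h
  simp at h

/-- admissible partner, terminal version -/
theorem adu (h1 : T_CUT) (h2 : T_CUX) {G : Gr V E} {A : Finset E} {c : ℕ} (hc : Even c)
    {τ : V → ℕ} (hpar : ∀ v, Even (cn G A {v} + τ v))
    (hconn : ∀ X : Finset V, SU τ X → c ≤ cn G A X) {z : V} (hz : τ z = 0) {p : E} (hp : p ∈ A)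
    {y : V} (hyz : y ≠ z) (hj : Jn G p z y) :
    ∃ q ∈ A, q ≠ p ∧ ∃ y', y' ≠ z ∧ Jn G q z y' ∧
      ∀ X : Finset V, z ∉ X → y ∈ X → y' ∈ X → SU τ X → c + 2 ≤ cn G A X := by
  classical
  have hCF := h1 V E G A
  have hpx := par_all h2 hpar
  have hpu : Even (∑ v, τ v) := by
    have := hpx univ
    rwa [cn_univ, zero_add] at this
  have hsplit : ∀ X : Finset V, ∑ v ∈ X, τ v + ∑ v ∈ Xᶜ, τ v = ∑ v, τ v :=
    fun X => sum_add_sum_compl X τ
  -- other ends of the edges at z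
  have hend : ∀ q, Cr G {z} q → ∃ y', y' ≠ z ∧ Jn G q z y' := by
    intro q hcr
    rcases hcr with ⟨a1, a2⟩ | ⟨a1, a2⟩
    · exact ⟨G.t q, fun h => a2 (mem_singleton.2 h), Or.inl ⟨mem_singleton.1 a1, rfl⟩⟩
    · exact ⟨G.s q, fun h => a1 (mem_singleton.2 h), Or.inr ⟨rfl, mem_singleton.1 a2⟩⟩
  by_contra hcon
  push Not at hcon
  have hcrp : Cr G {z} p := (jn_cr hj {z}).2 (Or.inl ⟨mem_singleton_self z, by simpa using hyz⟩)
  -- the tight sets containing y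
  let 𝒯 : Finset (Finset V) :=
    univ.filter (fun X => z ∉ X ∧ y ∈ X ∧ SU τ X ∧ cn G A X < c + 2)
  have h𝒯 : ∀ X, X ∈ 𝒯 ↔ (z ∉ X ∧ y ∈ X ∧ SU τ X ∧ cn G A X < c + 2) := by
    intro X; simp only [𝒯, mem_filter, mem_univ, true_and]
  have hbad : ∀ q ∈ A, q ≠ p → ∀ y', y' ≠ z → Jn G q z y' → ∃ X, X ∈ 𝒯 ∧ y' ∈ X := by
    intro q hq hqp y' hy' hjq
    obtain ⟨X, x1, x2, x3, x4, x5⟩ := hcon q hq hqp y' hy' hjq
    exact ⟨X, (h𝒯 X).2 ⟨x1, x2, x4, x5⟩, x3⟩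
  -- another edge at z
  have hne : 𝒯.Nonempty := by
    have h3 := hpar z
    rw [hz, add_zero] at h3
    have h4 : 1 < (A.filter (fun e => Cr G {z} e)).card := by
      have hpos : 0 < (A.filter (fun e => Cr G {z} e)).card :=
        card_pos.2 ⟨p, mem_filter.2 ⟨hp, hcrp⟩⟩
      obtain ⟨k, hk⟩ := h3
      unfold cn at hk
      omega
    obtain ⟨q, hq, hqp⟩ := exists_mem_ne h4 p
    obtain ⟨hqA, hqc⟩ := mem_filter.1 hq
    obtain ⟨y', hy', hjq⟩ := hend q hqc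
    obtain ⟨X, hX, _⟩ := hbad q hqA hqp y' hy' hjq
    exact ⟨X, hX⟩
  obtain ⟨X1, hX1, hmax⟩ := exists_max_image 𝒯 card hne
  obtain ⟨hz1, hy1, ⟨hs1, hs1'⟩, hc1⟩ := (h𝒯 X1).1 hX1
  have hc1' : c ≤ cn G A X1 := hconn X1 ⟨hs1, hs1'⟩
  -- an edge leaving to the outside of X1
  have hout : ∃ q ∈ A, ∃ y', y' ≠ z ∧ Jn G q z y' ∧ y' ∉ X1 := by
    by_contra hno
    push Not at hno
    have hd : Disjoint ({z} : Finset V) X1 := disjoint_singleton_left.2 hz1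
    have h3 := (h2 V E G A).2.1 {z} X1 hd
    have h4 : (A.filter (fun e => (G.s e ∈ ({z} : Finset V) ∧ G.t e ∈ X1) ∨
        (G.s e ∈ X1 ∧ G.t e ∈ ({z} : Finset V)))) = A.filter (fun e => Cr G {z} e) := by
      apply filter_congr
      intro e he
      constructor
      · rintro (⟨a1, a2⟩ | ⟨a1, a2⟩)
        · exact Or.inl ⟨a1, fun h => hz1 ((mem_singleton.1 h) ▸ a2)⟩
        · exact Or.inr ⟨fun h => hz1 ((mem_singleton.1 h) ▸ a1), a2⟩
      · intro hcr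
        obtain ⟨y', hy', hjq⟩ := hend e hcr
        have hin := hno e he y' hy' hjq
        rcases hjq with ⟨b1, b2⟩ | ⟨b1, b2⟩
        · exact Or.inl ⟨mem_singleton.2 b1, b2 ▸ hin⟩
        · exact Or.inr ⟨b1 ▸ hin, mem_singleton.2 b2⟩
    rw [h4] at h3
    have h5 : (A.filter (fun e => Cr G {z} e)).card = cn G A {z} := rfl
    rw [h5] at h3
    have hsu : SU τ ({z} ∪ X1) := by
      obtain ⟨v, hv, hv'⟩ := hs1
      obtain ⟨w, hw, hw'⟩ := hs1'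
      refine ⟨⟨v, mem_union_right _ hv, hv'⟩, w, ?_, hw'⟩
      rw [mem_union, mem_singleton]
      rintro (h | h)
      · rw [h] at hw'; exact hw' hz
      · exact hw h
    have h6 := hconn _ hsu
    have h7 := hpx ({z} ∪ X1)
    rw [sum_union hd, sum_singleton, hz, zero_add] at h7
    have h8 := hpx X1
    have h9 : 0 < cn G A {z} := card_pos.2 ⟨p, mem_filter.2 ⟨hp, hcrp⟩⟩
    obtain ⟨k1, hk1⟩ := h7
    obtain ⟨k2, hk2⟩ := h8
    obtain ⟨k3, hk3⟩ := hc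
    omega
  obtain ⟨q, hq, y', hy', hjq, hy'1⟩ := hout
  have hqp : q ≠ p := by
    rintro rfl
    have : y = y' := by
      rcases hj with ⟨a1, a2⟩ | ⟨a1, a2⟩ <;> rcases hjq with ⟨b1, b2⟩ | ⟨b1, b2⟩
      · exact a2.symm.trans b2
      · exact absurd (a2.symm.trans b2) hyz
      · exact absurd (b2.symm.trans a2) hy'
      · exact a1.symm.trans b1
    exact hy'1 (this ▸ hy1)
  obtain ⟨X2, hX2, hy2'⟩ := hbad q hq hqp y' hy' hjq
  obtain ⟨hz2, hy2, ⟨hs2, hs2'⟩, hc2⟩ := (h𝒯 X2).1 hX2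
  have hc2' : c ≤ cn G A X2 := hconn X2 ⟨hs2, hs2'⟩
  -- the union cannot be tight
  have hunion : SU τ (X1 ∪ X2) → c + 2 ≤ cn G A (X1 ∪ X2) := by
    intro hsu
    by_contra hlt
    have hmem : X1 ∪ X2 ∈ 𝒯 := (h𝒯 _).2
      ⟨by rw [mem_union]; tauto, mem_union_left _ hy1, hsu, by omega⟩
    have h3 := hmax _ hmem
    have h4 : X1 ⊂ X1 ∪ X2 := by
      rw [ssubset_iff_subset_ne]
      refine ⟨subset_union_left, ?_⟩
      intro heq
      apply hy'1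
      rw [heq]
      exact mem_union_right _ hy2'
    have h5 := card_lt_card h4
    omega
  have hsub := hCF.sub X1 X2
  have hpos := (h2 V E G A).1 X1 X2 p hp y z (jn_symm hj) hy1 hy2 hz1 hz2
  have p1 := hpx X1
  have p2 := hpx X2
  have p3 := hpx (X1 ∩ X2)
  have p4 := hpx (X1 ∪ X2)
  have p5 := hpx (X1 \ X2)
  have p6 := hpx (X2 \ X1)
  have t1 : ∑ v ∈ X1 \ X2, τ v + ∑ v ∈ X1 ∩ X2, τ v = ∑ v ∈ X1, τ v := by
    have := sum_inter_add_sum_sdiff X1 X2 τ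
    omega
  have t2 : ∑ v ∈ X2 \ X1, τ v + ∑ v ∈ X1 ∩ X2, τ v = ∑ v ∈ X2, τ v := by
    have := sum_inter_add_sum_sdiff X2 X1 τ
    rw [inter_comm X2 X1] at this
    omega
  have t3 : ∑ v ∈ X1 ∪ X2, τ v + ∑ v ∈ X1 ∩ X2, τ v = ∑ v ∈ X1, τ v + ∑ v ∈ X2, τ v :=
    sum_union_inter
  have t4 := hsplit (X1 ∪ X2)
  by_cases hb : ∃ v ∈ X1 \ X2, τ v ≠ 0
  · by_cases hd : ∃ v ∈ X2 \ X1, τ v ≠ 0
    · -- both differences separate
      have k1 : c ≤ cn G A (X1 \ X2) := by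
        refine hconn _ ⟨hb, ?_⟩
        obtain ⟨v, hv, hv'⟩ := hd
        exact ⟨v, fun h => (mem_sdiff.1 h).2 (mem_sdiff.1 hv).1, hv'⟩
      have k2 : c ≤ cn G A (X2 \ X1) := by
        refine hconn _ ⟨hd, ?_⟩
        obtain ⟨v, hv, hv'⟩ := hb
        exact ⟨v, fun h => (mem_sdiff.1 h).2 (mem_sdiff.1 hv).1, hv'⟩
      obtain ⟨c', hc'⟩ := hc
      obtain ⟨m1, m1'⟩ := p1
      obtain ⟨m2, m2'⟩ := p2
      obtain ⟨m3, m3'⟩ := p3
      obtain ⟨m4, m4'⟩ := p4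
      obtain ⟨m5, m5'⟩ := p5
      obtain ⟨m6, m6'⟩ := p6
      obtain ⟨m7, m7'⟩ := hpu
      have o1 : Odd (∑ v ∈ X1 ∩ X2, τ v) := by
        rw [← Nat.not_even_iff_odd]
        rintro ⟨j, hj⟩
        omega
      have o2 : Odd (∑ v ∈ (X1 ∪ X2)ᶜ, τ v) := by
        obtain ⟨j, hj⟩ := o1
        rw [← Nat.not_even_iff_odd]
        rintro ⟨i, hi⟩
        omega
      obtain ⟨v, hv, hv'⟩ := sum_ne_of_odd o1
      obtain ⟨w, hw, hw'⟩ := sum_ne_of_odd o2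
      rw [mem_compl] at hw
      have s1 : SU τ (X1 ∪ X2) :=
        ⟨⟨v, mem_union_left _ (mem_inter.1 hv).1, hv'⟩, w, hw, hw'⟩
      have s2 : SU τ (X1 ∩ X2) := by
        refine ⟨⟨v, hv, hv'⟩, w, ?_, hw'⟩
        intro h
        exact hw (mem_union_left _ (mem_inter.1 h).1)
      have k3 := hunion s1
      have k4 := hconn _ s2
      obtain ⟨j, hj⟩ := o1
      omega
    · -- no terminal in X2 \ X1
      push Not at hd
      have z1 : ∑ v ∈ X2 \ X1, τ v = 0 := sum_eq_zero hd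
      obtain ⟨v, hv, hv'⟩ := hs2
      have hv1 : v ∈ X1 := by
        by_contra h
        exact hv' (hd v (mem_sdiff.2 ⟨hv, h⟩))
      obtain ⟨w, hw, hw'⟩ := hs1'
      have hw2 : w ∉ X2 := fun h => hw' (hd w (mem_sdiff.2 ⟨h, hw⟩))
      have s1 : SU τ (X1 ∪ X2) := by
        refine ⟨⟨v, mem_union_left _ hv1, hv'⟩, w, ?_, hw'⟩
        rw [mem_union]; tauto
      have s2 : SU τ (X1 ∩ X2) := by
        refine ⟨⟨v, mem_inter.2 ⟨hv1, hv⟩, hv'⟩, w, ?_, hw'⟩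
        rw [mem_inter]; tauto
      have k3 := hunion s1
      have k4 := hconn _ s2
      obtain ⟨c', hc'⟩ := hc
      obtain ⟨m1, m1'⟩ := p1
      obtain ⟨m2, m2'⟩ := p2
      obtain ⟨m3, m3'⟩ := p3
      obtain ⟨m4, m4'⟩ := p4
      omega
  · push Not at hb
    have z1 : ∑ v ∈ X1 \ X2, τ v = 0 := sum_eq_zero hb
    obtain ⟨v, hv, hv'⟩ := hs1
    have hv1 : v ∈ X2 := by
      by_contra h
      exact hv' (hb v (mem_sdiff.2 ⟨hv, h⟩))
    obtain ⟨w, hw, hw'⟩ := hs2'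
    have hw2 : w ∉ X1 := fun h => hw' (hb w (mem_sdiff.2 ⟨h, hw⟩))
    have s1 : SU τ (X1 ∪ X2) := by
      refine ⟨⟨v, mem_union_left _ hv, hv'⟩, w, ?_, hw'⟩
      rw [mem_union]; tauto
    have s2 : SU τ (X1 ∩ X2) := by
      refine ⟨⟨v, mem_inter.2 ⟨hv, hv1⟩, hv'⟩, w, ?_, hw'⟩
      rw [mem_inter]; tauto
    have k3 := hunion s1
    have k4 := hconn _ s2
    obtain ⟨c', hc'⟩ := hc
    obtain ⟨m1, m1'⟩ := p1
    obtain ⟨m2, m2'⟩ := p2
    obtain ⟨m3, m3'⟩ := p3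
    obtain ⟨m4, m4'⟩ := p4
    omega

end

end Pool.Agent.H71.WE
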